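import Mathlib

set_option autoImplicit false

namespace Pool.Agent.H44

open Complex Metric Set Filter Topology

/-- Removing one zero of a bounded holomorphic function. -/
lemma remove_zero {h : ℂ → ℂ} {M : ℝ} {a : ℝ} (ha0 : 0 ≤ a) (ha1 : a < 1)
    (hd : DifferentiableOn ℂ h (ball 0 1)) (hb : ∀ z ∈ ball (0 : ℂ) 1, ‖h z‖ ≤ M)
    (hz : h a = 0) :
    ∃ k : ℂ → ℂ, DifferentiableOn ℂ k (ball 0 1) ∧ (∀ z ∈ ball (0 : ℂ) 1, ‖k z‖ ≤ M) ∧
      ∀ z ∈ ball (0 : ℂ) 1, h z = (z - a) / (1 - a * z) * k z := by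
  have ham : (a : ℂ) ∈ ball (0 : ℂ) 1 := by
    rw [mem_ball_zero_iff, Complex.norm_real, Real.norm_of_nonneg ha0]; exact ha1
  have hds : DifferentiableOn ℂ (dslope h a) (ball 0 1) :=
    (Complex.differentiableOn_dslope (isOpen_ball.mem_nhds ham)).mpr hd
  have hprod : ∀ z, h z = (z - a) * dslope h a z := by
    intro z
    have := sub_smul_dslope h (a : ℂ) z
    rw [smul_eq_mul, hz, sub_zero] at this
    exact this.symm
  refine ⟨fun z => (1 - a * z) * dslope h a z, ?_, ?_, ?_⟩
  · apply DifferentiableOn.mul _ hds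
    exact ((differentiable_const _).sub ((differentiable_const _).mul differentiable_id)).differentiableOn
  · intro z hzb
    -- bound for every r close to one
    have key : ∀ r : ℝ, ‖z‖ < r → r < 1 → 0 < r → ‖(r ^ 2 - a * z) * dslope h a z‖ ≤ M * r := by
      intro r hzr hr1 hr0
      have hsub : closedBall (0 : ℂ) r ⊆ ball 0 1 := closedBall_subset_ball hr1
      have hdc : DiffContOnCl ℂ (fun w : ℂ => ((r : ℂ) ^ 2 - a * w) * dslope h a w) (ball 0 r) := by
        apply DifferentiableOn.diffContOnCl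
        rw [closure_ball _ hr0.ne']
        apply DifferentiableOn.mul
        · exact ((differentiable_const _).sub
            ((differentiable_const _).mul differentiable_id)).differentiableOn
        · exact hds.mono hsub
      refine Complex.norm_le_of_forall_mem_frontier_norm_le isBounded_ball hdc ?_
        (subset_closure (by rwa [mem_ball_zero_iff]))
      intro w hw
      rw [frontier_ball _ hr0.ne', mem_sphere_zero_iff_norm] at hw
      have hwb : w ∈ ball (0 : ℂ) 1 := by rw [mem_ball_zero_iff, hw]; exact hr1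
      have h1 : ((r : ℂ) ^ 2 - a * w) = w * (starRingEnd ℂ) (w - a) := by
        have : w * (starRingEnd ℂ) w = (r : ℂ) ^ 2 := by
          rw [Complex.mul_conj, Complex.normSq_eq_norm_sq, hw]; push_cast; ring
        rw [map_sub, Complex.conj_ofReal, mul_sub, this]
        ring
      rw [h1, norm_mul, norm_mul, hw, RCLike.norm_conj]
      have h2 := hb w hwb
      rw [hprod w, norm_mul] at h2
      nlinarith
    have hlim : Tendsto (fun r : ℝ => ‖((r : ℂ) ^ 2 - a * z) * dslope h a z‖) (𝓝[<] 1)
        (𝓝 ‖(((1 : ℝ) : ℂ) ^ 2 - a * z) * dslope h a z‖) := by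
      apply Tendsto.mono_left _ nhdsWithin_le_nhds
      apply Continuous.tendsto
      fun_prop
    have hlim2 : Tendsto (fun r : ℝ => M * r) (𝓝[<] 1) (𝓝 (M * 1)) := by
      apply Tendsto.mono_left _ nhdsWithin_le_nhds
      apply Continuous.tendsto
      fun_prop
    rw [mem_ball_zero_iff] at hzb
    have hev : ∀ᶠ r : ℝ in 𝓝[<] 1, ‖((r : ℂ) ^ 2 - a * z) * dslope h a z‖ ≤ M * r := by
      have hz' : max ‖z‖ (1 / 2) < 1 := max_lt hzb (by norm_num)
      filter_upwards [Ioo_mem_nhdsLT hz'] with r hr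
      exact key r (lt_of_le_of_lt (le_max_left _ _) hr.1) hr.2
        (lt_trans (by norm_num) (lt_of_le_of_lt (le_max_right _ _) hr.1))
    have := le_of_tendsto_of_tendsto hlim hlim2 hev
    simpa using this
  · intro z hzb
    have hne : (1 - a * z : ℂ) ≠ 0 := by
      intro h0
      have h1 : (a : ℂ) * z = 1 := by linear_combination -h0
      have h2 : ‖(a : ℂ) * z‖ = 1 := by rw [h1]; simp
      rw [norm_mul, Complex.norm_real, Real.norm_of_nonneg ha0] at h2
      rw [mem_ball_zero_iff] at hzb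
      nlinarith [norm_nonneg z]
    rw [hprod z, div_mul_eq_mul_div, eq_div_iff hne]
    ring

/-- Bound of a bounded holomorphic function by a finite Blaschke product. -/
lemma blaschke_bound (A : Finset ℝ) :
    (∀ a ∈ A, 0 ≤ a ∧ a < 1) → ∀ (h : ℂ → ℂ) (M : ℝ),
    DifferentiableOn ℂ h (ball 0 1) → (∀ z ∈ ball (0 : ℂ) 1, ‖h z‖ ≤ M) →
    (∀ a ∈ A, h (a : ℂ) = 0) → ∀ z ∈ ball (0 : ℂ) 1,
      ‖h z‖ ≤ M * ∏ a ∈ A, ‖(z - a) / (1 - a * z)‖ := by
  classical
  induction A using Finset.induction_on with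
  | empty =>
    intro _ h M _ hb _ z hz
    simpa using hb z hz
  | insert a A haA ih =>
    intro hA h M hd hb h0 z hz
    obtain ⟨k, hk1, hk2, hk3⟩ := remove_zero (hA a (Finset.mem_insert_self _ _)).1
      (hA a (Finset.mem_insert_self _ _)).2 hd hb (h0 a (Finset.mem_insert_self _ _))
    have hk0 : ∀ b ∈ A, k (b : ℂ) = 0 := by
      intro b hb'
      have hbA := hA b (Finset.mem_insert_of_mem hb')
      have hbm : (b : ℂ) ∈ ball (0 : ℂ) 1 := by
        rw [mem_ball_zero_iff, Complex.norm_real, Real.norm_of_nonneg hbA.1]; exact hbA.2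
      have h1 := hk3 b hbm
      rw [h0 b (Finset.mem_insert_of_mem hb')] at h1
      have hne : ((b : ℂ) - a) / (1 - a * b) ≠ 0 := by
        apply div_ne_zero
        · intro h2
          have : (b : ℂ) = a := sub_eq_zero.mp h2
          have : b = a := by exact_mod_cast this
          exact haA (this ▸ hb')
        · intro h2
          have h3 : ((1 - a * b : ℝ) : ℂ) = 0 := by push_cast; exact h2
          have h4 : (1 - a * b : ℝ) = 0 := by exact_mod_cast h3
          have ha := hA a (Finset.mem_insert_self _ _)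
          nlinarith [hbA.1, hbA.2, ha.1, ha.2]
      exact (mul_eq_zero.mp h1.symm).resolve_left hne
    have := ih (fun b hb' => hA b (Finset.mem_insert_of_mem hb')) k M hk1 hk2 hk0 z hz
    rw [Finset.prod_insert haA, hk3 z hz, norm_mul]
    have hn : 0 ≤ ‖(z - a) / (1 - a * z)‖ := norm_nonneg _
    calc ‖(z - a) / (1 - a * z)‖ * ‖k z‖ ≤ ‖(z - a) / (1 - a * z)‖ *
        (M * ∏ a ∈ A, ‖(z - a) / (1 - a * z)‖) := mul_le_mul_of_nonneg_left this hn
      _ = _ := by ring

/-- Uniqueness: a bounded holomorphic function on the disc vanishing at `m/(m+1)`, `m ∈ Z`, with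
`∑_{m ∈ Z} 1/(m+1) = ∞`, vanishes identically. -/
theorem blaschke_unique {h : ℂ → ℂ} {M : ℝ} (hd : DifferentiableOn ℂ h (ball 0 1))
    (hb : ∀ z ∈ ball (0 : ℂ) 1, ‖h z‖ ≤ M) (Z : Set ℕ)
    (hZ : ∀ m ∈ Z, h ((m : ℂ) / (m + 1)) = 0)
    (hdiv : ¬ Summable (Z.indicator (fun m : ℕ => 1 / ((m : ℝ) + 1)))) :
    ∀ z ∈ ball (0 : ℂ) 1, h z = 0 := by
  classical
  have hM : 0 ≤ M := le_trans (norm_nonneg _) (hb 0 (by simp))
  -- vanishing on the negative real axis
  have hneg : ∀ x : ℝ, -1 < x → x < 0 → h (x : ℂ) = 0 := by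
    intro x hx1 hx0
    have hxm : (x : ℂ) ∈ ball (0 : ℂ) 1 := by
      rw [mem_ball_zero_iff, Complex.norm_real, Real.norm_eq_abs, abs_lt]; constructor <;> linarith
    by_contra hne
    have hpos : 0 < ‖h x‖ := norm_pos_iff.mpr hne
    apply hdiv
    -- bounded partial sums
    set c : ℝ := (1 + x) / 2 with hc
    have hc0 : 0 < c := by rw [hc]; linarith
    have hbound : ∀ n : ℕ, ∑ m ∈ Finset.range n, Z.indicator (fun m : ℕ => 1 / ((m : ℝ) + 1)) m ≤
        (M / ‖h x‖) / c := by
      intro n
      set B : Finset ℕ := (Finset.range n).filter (fun m => m ∈ Z) with hB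
      have hsum : ∑ m ∈ Finset.range n, Z.indicator (fun m : ℕ => 1 / ((m : ℝ) + 1)) m =
          ∑ m ∈ B, 1 / ((m : ℝ) + 1) := by
        rw [hB, Finset.sum_filter]
        rfl
      rw [hsum]
      have hinj : Function.Injective (fun m : ℕ => (m : ℝ) / (m + 1)) := by
        intro m k hmk
        simp only at hmk
        rw [div_eq_div_iff (by positivity) (by positivity)] at hmk
        have : (m : ℝ) = k := by linarith
        exact_mod_cast this
      have h1 := blaschke_bound (B.image (fun m : ℕ => (m : ℝ) / (m + 1)))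
        (by
          intro a ha
          obtain ⟨m, _, rfl⟩ := Finset.mem_image.mp ha
          constructor
          · positivity
          · rw [div_lt_one (by positivity)]; linarith) h M hd hb
        (by
          intro a ha
          obtain ⟨m, hm, rfl⟩ := Finset.mem_image.mp ha
          have := hZ m (Finset.mem_filter.mp hm).2
          push_cast
          exact this) x hxm
      rw [Finset.prod_image (fun a _ b _ hab => hinj hab)] at h1
      have h2 : ∏ m ∈ B, ‖((x : ℂ) - ((m : ℝ) / (m + 1) : ℝ)) / (1 - ((m : ℝ) / (m + 1) : ℝ) * x)‖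
          ≤ Real.exp (-(c * ∑ m ∈ B, 1 / ((m : ℝ) + 1))) := by
        rw [Finset.mul_sum, ← Finset.sum_neg_distrib, Real.exp_sum]
        apply Finset.prod_le_prod
        · intro m _; exact norm_nonneg _
        · intro m _
          have hm1 : (0 : ℝ) < (m : ℝ) + 1 := by positivity
          set a : ℝ := (m : ℝ) / (m + 1) with ha
          have ha0 : 0 ≤ a := by positivity
          have ha1 : a < 1 := by rw [ha, div_lt_one hm1]; linarith
          have ha2 : 1 - a = 1 / ((m : ℝ) + 1) := by rw [ha]; field_simp; ring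
          have hden : 0 < 1 - a * x := by nlinarith
          have e1 : ((x : ℂ) - (a : ℝ)) / (1 - (a : ℝ) * x) = (((x - a) / (1 - a * x) : ℝ) : ℂ) := by
            push_cast; ring
          rw [e1, Complex.norm_real, Real.norm_eq_abs, abs_div, abs_of_pos hden,
            abs_of_neg (by linarith : x - a < 0)]
          have e2 : -(x - a) / (1 - a * x) ≤ 1 - c * (1 / ((m : ℝ) + 1)) := by
            rw [← ha2, div_le_iff₀ hden, hc]
            nlinarith [mul_nonneg (sub_nonneg.mpr ha1.le) (by linarith : (0:ℝ) ≤ 1 + x),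
              mul_nonneg ha0 (by linarith : (0:ℝ) ≤ -x),
              mul_nonneg (mul_nonneg (sub_nonneg.mpr ha1.le) (by linarith : (0:ℝ) ≤ 1 + x)) 
              (by nlinarith : (0:ℝ) ≤ 1 + a * x)]
          refine le_trans e2 ?_
          have := Real.add_one_le_exp (-(c * (1 / ((m : ℝ) + 1))))
          linarith
      have h3 : ‖h x‖ ≤ M * Real.exp (-(c * ∑ m ∈ B, 1 / ((m : ℝ) + 1))) :=
        le_trans h1 (mul_le_mul_of_nonneg_left h2 hM)
      set S := ∑ m ∈ B, 1 / ((m : ℝ) + 1) with hS
      have h4 : ‖h x‖ * Real.exp (c * S) ≤ M := by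
        calc ‖h x‖ * Real.exp (c * S) ≤ (M * Real.exp (-(c * S))) * Real.exp (c * S) :=
              mul_le_mul_of_nonneg_right h3 (Real.exp_pos _).le
          _ = M := by rw [mul_assoc, ← Real.exp_add]; simp
      have h5 : c * S ≤ Real.exp (c * S) := by
        have := Real.add_one_le_exp (c * S); linarith
      rw [le_div_iff₀ hc0, le_div_iff₀ hpos]
      calc S * c * ‖h x‖ = ‖h x‖ * (c * S) := by ring
        _ ≤ ‖h x‖ * Real.exp (c * S) := mul_le_mul_of_nonneg_left h5 hpos.le
        _ ≤ M := h4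
    exact summable_of_sum_range_le (fun m => Set.indicator_nonneg (fun m _ => by positivity) m) hbound
  -- identity theorem
  have han : AnalyticOnNhd ℂ h (ball 0 1) := hd.analyticOnNhd isOpen_ball
  have hpt : (((-1 / 2 : ℝ)) : ℂ) ∈ ball (0 : ℂ) 1 := by
    rw [mem_ball_zero_iff, Complex.norm_real]; norm_num
  have hfreq : ∃ᶠ z in 𝓝[≠] (((-1 / 2 : ℝ)) : ℂ), h z = 0 := by
    have ht : Tendsto (fun t : ℝ => (t : ℂ)) (𝓝[≠] (-1 / 2)) (𝓝[≠] (((-1 / 2 : ℝ)) : ℂ)) := by
      apply tendsto_nhdsWithin_of_tendsto_nhds_of_eventually_within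
      · exact (Complex.continuous_ofReal.tendsto _).mono_left nhdsWithin_le_nhds
      · filter_upwards [self_mem_nhdsWithin] with t ht
        simp only [mem_compl_iff, mem_singleton_iff] at ht ⊢
        exact_mod_cast ht
    apply ht.frequently
    apply Eventually.frequently
    have : Ioo (-1 : ℝ) 0 ∈ 𝓝[≠] (-1 / 2 : ℝ) :=
      mem_nhdsWithin_of_mem_nhds (Ioo_mem_nhds (by norm_num) (by norm_num))
    filter_upwards [this] with t ht
    exact hneg t ht.1 ht.2
  exact han.eqOn_zero_of_preconnected_of_frequently_eq_zero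
    (convex_ball (0 : ℂ) 1).isPreconnected hpt hfreq

/-- Half-plane version. -/
theorem halfplane_unique {D : ℂ → ℂ} {M : ℝ} (hd : DifferentiableOn ℂ D {s | -1 / 2 < s.re})
    (hb : ∀ s : ℂ, -1 / 2 < s.re → ‖D s‖ ≤ M) (Z : Set ℕ)
    (hZ : ∀ m ∈ Z, D (m : ℂ) = 0)
    (hdiv : ¬ Summable (Z.indicator (fun m : ℕ => 1 / ((m : ℝ) + 1)))) :
    ∀ m : ℕ, D (m : ℂ) = 0 := by
  have hmap : ∀ z ∈ ball (0 : ℂ) 1, -1 / 2 < (z / (1 - z)).re := by
    intro z hz
    rw [mem_ball_zero_iff] at hz
    have hn : Complex.normSq z < 1 := by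
      rw [Complex.normSq_eq_norm_sq]; nlinarith [norm_nonneg z]
    have hne : 1 - z ≠ 0 := by
      intro h0
      have : z = 1 := by linear_combination -h0
      rw [this] at hz; simp at hz
    have hpos : 0 < Complex.normSq (1 - z) := Complex.normSq_pos.mpr hne
    rw [Complex.div_re]
    have e : z.re * (1 - z).re / Complex.normSq (1 - z) + z.im * (1 - z).im / Complex.normSq (1 - z)
        = (z.re * (1 - z).re + z.im * (1 - z).im) / Complex.normSq (1 - z) := by ring
    rw [e, lt_div_iff₀ hpos]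
    rw [Complex.normSq_apply] at hn
    simp only [Complex.normSq_apply, sub_re, sub_im, one_re, one_im]
    nlinarith
  have h1 : DifferentiableOn ℂ (fun z => D (z / (1 - z))) (ball 0 1) := by
    apply DifferentiableOn.comp hd _ hmap
    intro z hz
    have hne : 1 - z ≠ 0 := by
      intro h0
      have : z = 1 := by linear_combination -h0
      rw [mem_ball_zero_iff, this] at hz; simp at hz
    exact (differentiableAt_id.fun_div ((differentiableAt_const _).sub differentiableAt_id)
      hne).differentiableWithinAt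
  have h2 : ∀ m : ℕ, ((m : ℂ) / (m + 1)) / (1 - (m : ℂ) / (m + 1)) = m := by
    intro m
    have : (m : ℂ) + 1 ≠ 0 := by exact_mod_cast Nat.succ_ne_zero m
    field_simp
    ring
  have key := blaschke_unique (M := M) h1 (fun z hz => hb _ (hmap z hz)) Z
    (fun m hm => by simp only [h2]; exact hZ m hm) hdiv
  intro m
  have hm : ((m : ℂ) / (m + 1)) ∈ ball (0 : ℂ) 1 := by
    have : ((m : ℂ) / (m + 1)) = (((m : ℝ) / (m + 1) : ℝ) : ℂ) := by push_cast; ring
    rw [this, mem_ball_zero_iff, Complex.norm_real, Real.norm_of_nonneg (by positivity),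
      div_lt_one (by positivity)]
    linarith
  have := key _ hm
  simp only [h2] at this
  exact this

end Pool.Agent.H44
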