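import Mathlib

set_option autoImplicit false

namespace Pool.Agent.H44

open Polynomial

/-- Non-invertibility of the `n × n` Hankel block at `K`, in terms of polynomials. -/
def SingBlock (L : ℕ → (ℂ[X] →ₗ[ℂ] ℂ)) (n K : ℕ) : Prop :=
  ∃ P : ℂ[X], P ≠ 0 ∧ P.degree < (n : WithBot ℕ) ∧
    ∀ Q : ℂ[X], Q.degree < (n : WithBot ℕ) → L K (P * Q) = 0

variable {L : ℕ → (ℂ[X] →ₗ[ℂ] ℂ)}

lemma degree_X_mul_lt {Q : ℂ[X]} {n : ℕ} (hQ : Q.degree < (n : WithBot ℕ)) :
    (X * Q).degree < ((n + 1 : ℕ) : WithBot ℕ) := by
  by_cases h0 : Q = 0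
  · subst h0; simp
  · rw [degree_mul, degree_X, degree_eq_natDegree h0] at *
    have : Q.natDegree < n := by exact_mod_cast hQ
    have h2 : (1 : WithBot ℕ) + (Q.natDegree : WithBot ℕ) = ((1 + Q.natDegree : ℕ) : WithBot ℕ) := by
      push_cast; rfl
    rw [h2]
    exact_mod_cast (by omega : 1 + Q.natDegree < n + 1)

lemma sing_step (hL : ∀ K P, L (K + 1) P = L K (X * P)) {n K : ℕ}
    (h1 : SingBlock L (n + 1) K) (h2 : SingBlock L n K) : SingBlock L n (K + 1) := by
  obtain ⟨P, hP0, hPd, hP⟩ := h1
  obtain ⟨Y, hY0, hYd, hY⟩ := h2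
  by_cases hdeg : P.degree < (n : WithBot ℕ)
  · refine ⟨P, hP0, hdeg, fun Q hQ => ?_⟩
    rw [hL]
    have := hP (X * Q) (degree_X_mul_lt hQ)
    rw [← this]
    congr 1; ring
  · -- degree exactly n
    have hdeg' : P.natDegree = n := by
      have h3 : P.natDegree < n + 1 := by
        rw [degree_eq_natDegree hP0] at hPd; exact_mod_cast hPd
      have h4 : ¬ P.natDegree < n := by
        rw [degree_eq_natDegree hP0] at hdeg; exact_mod_cast hdeg
      omega
    -- L K (Y * Q) = 0 for degree Q ≤ n
    have hlead : P.leadingCoeff ≠ 0 := leadingCoeff_ne_zero.mpr hP0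
    have hlow : (P.eraseLead).degree < (n : WithBot ℕ) := by
      have := degree_eraseLead_lt hP0
      rwa [degree_eq_natDegree hP0, hdeg'] at this
    have hXn : L K (Y * X ^ n) = 0 := by
      have h5 : L K (P * Y) = 0 := hP Y (lt_trans hYd (by exact_mod_cast Nat.lt_succ_self n))
      have h6 : P = P.eraseLead + C P.leadingCoeff * X ^ n := by
        conv_lhs => rw [← eraseLead_add_C_mul_X_pow P, hdeg']
      have h7 : L K (P * Y) = L K (Y * P.eraseLead) + P.leadingCoeff * L K (Y * X ^ n) := by
        conv_lhs => rw [h6]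
        have : (P.eraseLead + C P.leadingCoeff * X ^ n) * Y =
            Y * P.eraseLead + P.leadingCoeff • (Y * X ^ n) := by
          rw [smul_eq_C_mul]; ring
        rw [this, map_add, map_smul, smul_eq_mul]
      rw [h5, hY _ hlow, zero_add] at h7
      exact (mul_eq_zero.mp h7.symm).resolve_left hlead
    have hall : ∀ Q : ℂ[X], Q.degree < ((n + 1 : ℕ) : WithBot ℕ) → L K (Y * Q) = 0 := by
      intro Q hQ
      have hQ' : Q.natDegree ≤ n := by
        by_cases h0 : Q = 0
        · subst h0; simp
        · rw [degree_eq_natDegree h0] at hQ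
          have : Q.natDegree < n + 1 := by exact_mod_cast hQ
          omega
      have h8 : Q = (Q - C (Q.coeff n) * X ^ n) + C (Q.coeff n) * X ^ n := by ring
      have h9 : (Q - C (Q.coeff n) * X ^ n).degree < (n : WithBot ℕ) := by
        rw [degree_lt_iff_coeff_zero]
        intro m hm
        rw [coeff_sub, coeff_C_mul_X_pow]
        split_ifs with hmn
        · rw [hmn]; simp
        · rw [coeff_eq_zero_of_natDegree_lt (by omega)]; simp
      rw [h8]
      have : Y * (Q - C (Q.coeff n) * X ^ n + C (Q.coeff n) * X ^ n) =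
          Y * (Q - C (Q.coeff n) * X ^ n) + (Q.coeff n) • (Y * X ^ n) := by
        rw [smul_eq_C_mul]; ring
      rw [this, map_add, map_smul, hXn, hY _ h9]; simp
    refine ⟨Y, hY0, hYd, fun Q hQ => ?_⟩
    rw [hL]
    have := hall (X * Q) (degree_X_mul_lt hQ)
    rw [← this]
    congr 1; ring

/-- If all `n × n` Hankel blocks are singular from some point on, then the functionals `L K`
kill a common nonzero polynomial from some point on (a linear recurrence). -/
theorem exists_recurrence (hL : ∀ K P, L (K + 1) P = L K (X * P)) (n : ℕ) :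
    (∃ K0, ∀ K, K0 ≤ K → SingBlock L n K) →
      ∃ P : ℂ[X], P ≠ 0 ∧ ∃ K1, ∀ K, K1 ≤ K → L K P = 0 := by
  induction n with
  | zero =>
    rintro ⟨K0, h⟩
    obtain ⟨P, hP0, hPd, _⟩ := h K0 le_rfl
    exfalso
    rw [degree_eq_natDegree hP0] at hPd
    have : P.natDegree < 0 := by exact_mod_cast hPd
    omega
  | succ n ih =>
    rintro ⟨K0, h⟩
    by_cases hex : ∃ K, K0 ≤ K ∧ SingBlock L n K
    · apply ih
      obtain ⟨K, hK, hS⟩ := hex
      refine ⟨K, fun K' hK' => ?_⟩
      induction K', hK' using Nat.le_induction with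
      | base => exact hS
      | succ m hm ihm => exact sing_step hL (h m (le_trans hK hm)) ihm
    · push Not at hex
      -- monic kernel polynomials
      have hmon : ∀ K, K0 ≤ K → ∃ P : ℂ[X], P.Monic ∧ P.natDegree = n ∧
          ∀ Q : ℂ[X], Q.degree < ((n + 1 : ℕ) : WithBot ℕ) → L K (P * Q) = 0 := by
        intro K hK
        obtain ⟨P, hP0, hPd, hP⟩ := h K hK
        have hdeg : ¬ P.degree < (n : WithBot ℕ) := by
          intro hlt
          exact hex K hK ⟨P, hP0, hlt, fun Q hQ => hP Q (lt_trans hQ
            (by exact_mod_cast Nat.lt_succ_self n))⟩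
        have hdeg' : P.natDegree = n := by
          have h3 : P.natDegree < n + 1 := by
            rw [degree_eq_natDegree hP0] at hPd; exact_mod_cast hPd
          have h4 : ¬ P.natDegree < n := by
            rw [degree_eq_natDegree hP0] at hdeg; exact_mod_cast hdeg
          omega
        have hlead : P.leadingCoeff ≠ 0 := leadingCoeff_ne_zero.mpr hP0
        refine ⟨C (P.leadingCoeff)⁻¹ * P, ?_, ?_, ?_⟩
        · unfold Monic
          rw [leadingCoeff_mul, leadingCoeff_C, inv_mul_cancel₀ hlead]
        · rw [natDegree_C_mul (inv_ne_zero hlead), hdeg']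
        · intro Q hQ
          have : C (P.leadingCoeff)⁻¹ * P * Q = (P.leadingCoeff)⁻¹ • (P * Q) := by
            rw [smul_eq_C_mul]; ring
          rw [this, map_smul, hP Q hQ, smul_zero]
      choose! P hPm hPd hP using hmon
      have hstep : ∀ K, K0 ≤ K → P (K + 1) = P K := by
        intro K hK
        by_contra hne
        have hR0 : P K - P (K + 1) ≠ 0 := fun h0 => hne (sub_eq_zero.mp h0).symm
        apply hex (K + 1) (by omega)
        refine ⟨P K - P (K + 1), hR0, ?_, fun Q hQ => ?_⟩
        · have h1 := hPm K hK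
          have h2 := hPm (K + 1) (by omega)
          have h3 : (P K).degree = (n : WithBot ℕ) := by
            rw [degree_eq_natDegree h1.ne_zero, hPd K hK]
          have h4 : (P (K + 1)).degree = (n : WithBot ℕ) := by
            rw [degree_eq_natDegree h2.ne_zero, hPd (K + 1) (by omega)]
          have h5 := degree_sub_lt_left (h3.trans h4.symm) h1.ne_zero
            (by rw [h1.leadingCoeff, h2.leadingCoeff])
          rwa [h3] at h5
        · rw [sub_mul, map_sub, hP (K + 1) (by omega) Q (lt_trans hQ
            (by exact_mod_cast Nat.lt_succ_self n)), sub_zero, hL]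
          have := hP K hK (X * Q) (degree_X_mul_lt hQ)
          rw [← this]
          congr 1; ring
      have hconst : ∀ K, K0 ≤ K → P K = P K0 := by
        intro K hK
        induction K, hK using Nat.le_induction with
        | base => rfl
        | succ m hm ihm => rw [hstep m hm, ihm]
      refine ⟨P K0, (hPm K0 le_rfl).ne_zero, K0, fun K hK => ?_⟩
      rw [← hconst K hK]
      have := hP K hK 1 (by
        rw [degree_one]
        exact_mod_cast Nat.succ_pos n)
      rwa [mul_one] at this

end Pool.Agent.H44
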