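import Mathlib

set_option autoImplicit false

/-!
Definitions for Toeplitz operators on polyanalytic Bergman spaces.
-/

namespace Pool.Agent.H44

open MeasureTheory Metric Complex Set
open scoped ENNReal ContDiff

/-- Normalised area measure `dA = dx dy / π` on the open unit disc. -/
noncomputable def areaD : Measure ℂ :=
  (ENNReal.ofReal Real.pi)⁻¹ • (volume : Measure ℂ).restrict (ball (0 : ℂ) 1)

/-- The Wirtinger derivative `∂/∂z̄ = (∂/∂x + i ∂/∂y)/2`. -/
noncomputable def dbar (φ : ℂ → ℂ) (z : ℂ) : ℂ :=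
  (fderiv ℝ φ z 1 + I * fderiv ℝ φ z I) / 2

/-- Test functions: smooth functions with compact support contained in the open unit disc. -/
def IsTest (φ : ℂ → ℂ) : Prop :=
  ContDiff ℝ ∞ φ ∧ HasCompactSupport φ ∧ tsupport φ ⊆ ball (0 : ℂ) 1

lemma IsTest.dbar {φ : ℂ → ℂ} (h : IsTest φ) : IsTest (dbar φ) := by
  obtain ⟨h1, h2, h3⟩ := h
  have hfd : ContDiff ℝ ∞ (fderiv ℝ φ) := h1.fderiv_right (by norm_num)
  have hsub : tsupport (Pool.Agent.H44.dbar φ) ⊆ tsupport φ := by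
    apply closure_minimal _ (isClosed_tsupport φ)
    intro z hz
    by_contra hzs
    have h0 : fderiv ℝ φ z = 0 := by
      have : z ∉ tsupport (fderiv ℝ φ) := fun hm => hzs (tsupport_fderiv_subset ℝ hm)
      exact image_eq_zero_of_notMem_tsupport this
    apply hz
    simp [Pool.Agent.H44.dbar, h0]
  refine ⟨?_, ?_, hsub.trans h3⟩
  · unfold Pool.Agent.H44.dbar
    exact ((hfd.clm_apply contDiff_const).add (contDiff_const.mul
      (hfd.clm_apply contDiff_const))).div_const _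
  · exact h2.of_isClosed_subset (isClosed_tsupport _) hsub

lemma IsTest.dbar_iterate {φ : ℂ → ℂ} (h : IsTest φ) (n : ℕ) :
    IsTest (Pool.Agent.H44.dbar^[n] φ) := by
  induction n with
  | zero => exact h
  | succ n ih => rw [Function.iterate_succ_apply']; exact ih.dbar

instance : IsFiniteMeasure areaD := by
  unfold areaD
  refine ⟨?_⟩
  rw [Measure.smul_apply, Measure.restrict_apply MeasurableSet.univ, univ_inter, smul_eq_mul]
  apply ENNReal.mul_lt_top
  · rw [ENNReal.inv_lt_top]; exact ENNReal.ofReal_pos.mpr Real.pi_pos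
  · exact measure_ball_lt_top

lemma IsTest.memLp {φ : ℂ → ℂ} (h : IsTest φ) (p : ℝ≥0∞) : MemLp φ p areaD :=
  h.1.continuous.memLp_of_hasCompactSupport h.2.1

lemma integrable_mul_test (h : Lp ℂ 2 areaD) {φ : ℂ → ℂ} (hφ : IsTest φ) :
    Integrable (fun z => h z * φ z) areaD :=
  (Lp.memLp h).integrable_mul (hφ.memLp 2)

/-- `∂ⁿh/∂z̄ⁿ = 0` on `𝔻` in the sense of distributions, i.e. `∫ h ∂ⁿφ/∂z̄ⁿ dA = 0` for all test
functions `φ`. -/
def WeakPolyanalytic (n : ℕ) (h : ℂ → ℂ) : Prop :=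
  ∀ φ : ℂ → ℂ, IsTest φ → ∫ z, h z * (dbar^[n] φ) z ∂areaD = 0

lemma weak_zero (n : ℕ) : WeakPolyanalytic n (0 : Lp ℂ 2 areaD) := by
  intro φ hφ
  rw [integral_congr_ae (g := fun _ => (0 : ℂ))]
  · simp
  · filter_upwards [Lp.coeFn_zero ℂ 2 areaD] with z hz
    rw [hz]; simp

lemma weak_add {n : ℕ} {a b : Lp ℂ 2 areaD} (ha : WeakPolyanalytic n a)
    (hb : WeakPolyanalytic n b) : WeakPolyanalytic n (a + b : Lp ℂ 2 areaD) := by
  intro φ hφ
  have h1 := integrable_mul_test a (hφ.dbar_iterate n)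
  have h2 := integrable_mul_test b (hφ.dbar_iterate n)
  rw [integral_congr_ae (g := fun z => a z * (dbar^[n] φ) z + b z * (dbar^[n] φ) z)]
  · rw [integral_add h1 h2, ha φ hφ, hb φ hφ, add_zero]
  · filter_upwards [Lp.coeFn_add a b] with z hz
    rw [hz, Pi.add_apply, add_mul]

lemma weak_smul {n : ℕ} (c : ℂ) {a : Lp ℂ 2 areaD} (ha : WeakPolyanalytic n a) :
    WeakPolyanalytic n (c • a : Lp ℂ 2 areaD) := by
  intro φ hφ
  rw [integral_congr_ae (g := fun z => c * (a z * (dbar^[n] φ) z))]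
  · rw [integral_const_mul, ha φ hφ, mul_zero]
  · filter_upwards [Lp.coeFn_smul c a] with z hz
    rw [hz, Pi.smul_apply, smul_eq_mul, mul_assoc]

/-- The polyanalytic Bergman space `A²_n`: all `h ∈ L²(𝔻, dA)` with `∂ⁿh/∂z̄ⁿ = 0` on `𝔻` in the
sense of distributions. -/
noncomputable def polyBergman (n : ℕ) : Submodule ℂ (Lp ℂ 2 areaD) where
  carrier := {h | WeakPolyanalytic n h}
  zero_mem' := weak_zero n
  add_mem' := weak_add
  smul_mem' := fun c _ ha => weak_smul c ha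

lemma mem_polyBergman {n : ℕ} {h : Lp ℂ 2 areaD} :
    h ∈ polyBergman n ↔ ∀ φ : ℂ → ℂ, IsTest φ → ∫ z, h z * (dbar^[n] φ) z ∂areaD = 0 := Iff.rfl

lemma inner_eq_integral (u v : Lp ℂ 2 areaD) :
    inner ℂ u v = ∫ z, v z * (starRingEnd ℂ) (u z) ∂areaD := by
  rw [L2.inner_def]
  apply integral_congr_ae
  filter_upwards with z
  rw [RCLike.inner_apply]

lemma isClosed_polyBergman (n : ℕ) : IsClosed (polyBergman n : Set (Lp ℂ 2 areaD)) := by
  have : (polyBergman n : Set (Lp ℂ 2 areaD)) =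
      ⋂ (φ : ℂ → ℂ) (_ : IsTest φ), {h | ∫ z, h z * (dbar^[n] φ) z ∂areaD = 0} := by
    ext h
    simp only [SetLike.mem_coe, mem_polyBergman, mem_iInter, mem_ofPred_eq]
  rw [this]
  refine isClosed_iInter fun φ => isClosed_iInter fun hφ => ?_
  have hm : MemLp (fun z => (starRingEnd ℂ) ((dbar^[n] φ) z)) 2 areaD := by
    have := ((hφ.dbar_iterate n).memLp 2).star
    exact this
  have hcont : Continuous (fun h : Lp ℂ 2 areaD => inner ℂ (hm.toLp _) h) := by fun_prop
  have heq : ∀ h : Lp ℂ 2 areaD, inner ℂ (hm.toLp _) h = ∫ z, h z * (dbar^[n] φ) z ∂areaD := by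
    intro h
    rw [inner_eq_integral]
    apply integral_congr_ae
    filter_upwards [hm.coeFn_toLp] with z hz
    rw [hz, Complex.conj_conj]
  simp_rw [← heq]
  exact isClosed_eq hcont continuous_const

instance (n : ℕ) : CompleteSpace (polyBergman n) :=
  (isClosed_polyBergman n).completeSpace_coe

/-- The Toeplitz operator `T_f h = P_n (f h)` on `A²_n`, for `f ∈ L^∞(𝔻)`. -/
noncomputable def toeplitz (n : ℕ) (f : Lp ℂ ∞ areaD) : polyBergman n →L[ℂ] polyBergman n :=
  (polyBergman n).orthogonalProjectionOnto ∘L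
    ((ContinuousLinearMap.mul ℂ ℂ).holderL areaD ∞ 2 2 f) ∘L (polyBergman n).subtypeL

/-- `f` is radial: `f(z)` depends only on `|z|` (almost everywhere). -/
def IsRadial (f : Lp ℂ ∞ areaD) : Prop :=
  ∃ ρ : ℝ → ℂ, ∀ᵐ z ∂areaD, f z = ρ ‖z‖

end Pool.Agent.H44
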