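import Mathlib
import Pool.Agent.H44.PolyDefs

set_option autoImplicit false

namespace Pool.Agent.H44

open MeasureTheory Metric Complex Set Filter Topology
open scoped ENNReal ContDiff

lemma pi_inv_ne : (ENNReal.ofReal Real.pi)⁻¹ ≠ 0 :=
  ENNReal.inv_ne_zero.mpr ENNReal.ofReal_ne_top

lemma ae_areaD_iff {p : ℂ → Prop} :
    (∀ᵐ z ∂areaD, p z) ↔ ∀ᵐ z : ℂ, z ∈ ball (0 : ℂ) 1 → p z := by
  unfold areaD
  rw [Measure.ae_ennreal_smul_measure_iff pi_inv_ne, ae_restrict_iff' measurableSet_ball]

lemma ae_mem_ball : ∀ᵐ z ∂areaD, z ∈ ball (0 : ℂ) 1 := by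
  rw [ae_areaD_iff]; exact Eventually.of_forall fun z h => h

lemma ae_areaD_of_ae {p : ℂ → Prop} (h : ∀ᵐ z : ℂ, p z) : ∀ᵐ z ∂areaD, p z := by
  rw [ae_areaD_iff]; filter_upwards [h] with z hz _ using hz

lemma integral_areaD (f : ℂ → ℂ) :
    ∫ z, f z ∂areaD = (Real.pi)⁻¹ • ∫ z in ball (0 : ℂ) 1, f z := by
  unfold areaD
  rw [integral_smul_measure, ENNReal.toReal_inv, ENNReal.toReal_ofReal Real.pi_pos.le]

/-- Rotations preserve the measure. -/
lemma measurePreserving_rot (a : Circle) :
    MeasurePreserving (fun z : ℂ => (a : ℂ) * z) areaD areaD := by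
  have h1 : MeasurePreserving (rotation a) (volume : Measure ℂ) volume :=
    (rotation a).measurePreserving
  have h2 : MeasurePreserving (rotation a) (volume.restrict (ball (0 : ℂ) 1))
      (volume.restrict (ball (0 : ℂ) 1)) := by
    have := h1.restrict_preimage (s := ball (0 : ℂ) 1) measurableSet_ball
    have hpre : (rotation a) ⁻¹' (ball (0 : ℂ) 1) = ball (0 : ℂ) 1 := by
      ext z
      rw [mem_preimage, mem_ball_zero_iff, mem_ball_zero_iff, LinearIsometryEquiv.norm_map]
    rwa [hpre] at this
  unfold areaD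
  exact h2.smul_measure _

/-- The monomial `z^a * z̄^b`. -/
noncomputable def mono (a b : ℕ) (z : ℂ) : ℂ := z ^ a * (starRingEnd ℂ) z ^ b

lemma continuous_mono (a b : ℕ) : Continuous (mono a b) := by
  unfold mono
  exact (continuous_pow a).mul ((Complex.continuous_conj).pow b)

lemma norm_mono_le {a b : ℕ} {z : ℂ} (hz : z ∈ ball (0 : ℂ) 1) : ‖mono a b z‖ ≤ 1 := by
  rw [mem_ball_zero_iff] at hz
  unfold mono
  rw [norm_mul, norm_pow, norm_pow, RCLike.norm_conj]
  have h1 : ‖z‖ ^ a ≤ 1 := pow_le_one₀ (norm_nonneg _) hz.le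
  have h2 : ‖z‖ ^ b ≤ 1 := pow_le_one₀ (norm_nonneg _) hz.le
  nlinarith [pow_nonneg (norm_nonneg z) a, pow_nonneg (norm_nonneg z) b]

lemma memLp_of_cont {F : ℂ → ℂ} (hF : Continuous F) (p : ℝ≥0∞) : MemLp F p areaD := by
  obtain ⟨C, hC⟩ := (isCompact_closedBall (0 : ℂ) 1).exists_bound_of_continuousOn hF.continuousOn
  refine MemLp.of_bound hF.aestronglyMeasurable C ?_
  filter_upwards [ae_mem_ball] with z hz
  exact hC z (ball_subset_closedBall hz)

lemma integrable_of_cont_mul {F q : ℂ → ℂ} (hF : Continuous F) (hq : Integrable q areaD) :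
    Integrable (fun z => q z * F z) areaD := by
  obtain ⟨C, hC⟩ := (isCompact_closedBall (0 : ℂ) 1).exists_bound_of_continuousOn hF.continuousOn
  have := hq.bdd_mul (c := C) hF.aestronglyMeasurable (by
    filter_upwards [ae_mem_ball] with z hz
    exact hC z (ball_subset_closedBall hz))
  simpa [mul_comm] using this

/-- The retraction of `ℂ` to the closed unit disc. -/
noncomputable def retr : C(ℂ, closedBall (0 : ℂ) 1) where
  toFun z := ⟨((max 1 ‖z‖ : ℝ) : ℂ)⁻¹ * z, by
    rw [mem_closedBall_zero_iff, norm_mul, norm_inv, Complex.norm_real,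
      Real.norm_of_nonneg (le_trans zero_le_one (le_max_left _ _)), inv_mul_le_iff₀ (by positivity)]
    rw [mul_one]; exact le_max_right _ _⟩
  continuous_toFun := by
    apply Continuous.subtype_mk
    apply Continuous.mul _ continuous_id
    apply Continuous.inv₀
    · exact Complex.continuous_ofReal.comp (continuous_const.max continuous_norm)
    · intro z
      have : (0 : ℝ) < max 1 ‖z‖ := lt_of_lt_of_le one_pos (le_max_left _ _)
      exact_mod_cast this.ne'

lemma retr_coe {z : ℂ} (hz : z ∈ ball (0 : ℂ) 1) : (retr z : ℂ) = z := by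
  rw [mem_ball_zero_iff] at hz
  simp [retr, max_eq_left hz.le]

/-- Stone-Weierstrass for a multiplicative self-adjoint separating family. -/
lemma sw_functional {Y : Type*} [TopologicalSpace Y] [CompactSpace Y] (M : Set C(Y, ℂ))
    (h1 : (1 : C(Y, ℂ)) ∈ M) (hmul : ∀ f ∈ M, ∀ g ∈ M, f * g ∈ M) (hstar : ∀ f ∈ M, star f ∈ M)
    (hsep : ∀ x y : Y, x ≠ y → ∃ f ∈ M, f x ≠ f y)
    (Λ : C(Y, ℂ) →L[ℂ] ℂ) (hΛ : ∀ f ∈ M, Λ f = 0) : Λ = 0 := by
  have hmulspan : ∀ f ∈ Submodule.span ℂ M, ∀ g ∈ Submodule.span ℂ M,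
      f * g ∈ Submodule.span ℂ M := by
    intro f hf g hg
    induction hf, hg using Submodule.span_induction₂ with
    | mem_mem x y hx hy => exact Submodule.subset_span (hmul x hx y hy)
    | zero_left y hy => rw [zero_mul]; exact Submodule.zero_mem _
    | zero_right x hx => rw [mul_zero]; exact Submodule.zero_mem _
    | add_left x y z hx hy hz h1 h2 => rw [add_mul]; exact Submodule.add_mem _ h1 h2
    | add_right x y z hx hy hz h1 h2 => rw [mul_add]; exact Submodule.add_mem _ h1 h2
    | smul_left r x y hx hy h => rw [smul_mul_assoc]; exact Submodule.smul_mem _ _ h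
    | smul_right r x y hx hy h => rw [mul_smul_comm]; exact Submodule.smul_mem _ _ h
  have hstarspan : ∀ f ∈ Submodule.span ℂ M, star f ∈ Submodule.span ℂ M := by
    intro f hf
    induction hf using Submodule.span_induction with
    | mem x hx => exact Submodule.subset_span (hstar x hx)
    | zero => rw [star_zero]; exact Submodule.zero_mem _
    | add x y hx hy h1 h2 => rw [star_add]; exact Submodule.add_mem _ h1 h2
    | smul a x hx h => rw [star_smul]; exact Submodule.smul_mem _ _ h
  let A : StarSubalgebra ℂ C(Y, ℂ) :=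
    { carrier := (Submodule.span ℂ M : Set C(Y, ℂ))
      mul_mem' := fun {a b} ha hb => hmulspan a ha b hb
      one_mem' := Submodule.subset_span h1
      add_mem' := fun {a b} ha hb => Submodule.add_mem _ ha hb
      zero_mem' := Submodule.zero_mem _
      algebraMap_mem' := fun r => by
        rw [Algebra.algebraMap_eq_smul_one]
        exact Submodule.smul_mem _ _ (Submodule.subset_span h1)
      star_mem' := fun {a} ha => hstarspan a ha }
  have hA : A.toSubalgebra.SeparatesPoints := by
    intro x y hxy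
    obtain ⟨f, hf, hfxy⟩ := hsep x y hxy
    exact ⟨f, ⟨f, Submodule.subset_span hf, rfl⟩, hfxy⟩
  have htop := ContinuousMap.starSubalgebra_topologicalClosure_eq_top_of_separatesPoints A hA
  have hzero : ∀ f ∈ Submodule.span ℂ M, Λ f = 0 := by
    intro f hf
    induction hf using Submodule.span_induction with
    | mem x hx => exact hΛ x hx
    | zero => exact map_zero _
    | add x y hx hy h1 h2 => rw [map_add, h1, h2, add_zero]
    | smul a x hx h => rw [map_smul, h, smul_zero]
  ext f
  have hf : f ∈ A.topologicalClosure := by rw [htop]; trivial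
  have hf' : f ∈ closure (A : Set C(Y, ℂ)) := hf
  have hcl : IsClosed {g : C(Y, ℂ) | Λ g = 0} := isClosed_eq Λ.continuous continuous_const
  exact closure_minimal (fun g hg => hzero g hg) hcl hf'

/-- Integration against an integrable function as a functional on `C(closedBall)`. -/
noncomputable def intFun (q : ℂ → ℂ) (hq : Integrable q areaD) :
    C(closedBall (0 : ℂ) 1, ℂ) →L[ℂ] ℂ :=
  LinearMap.mkContinuous
    { toFun := fun F => ∫ z, q z * F (retr z) ∂areaD
      map_add' := fun F G => by
        have h1 : Integrable (fun z => q z * F (retr z)) areaD :=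
          integrable_of_cont_mul (F.continuous.comp retr.continuous) hq
        have h2 : Integrable (fun z => q z * G (retr z)) areaD :=
          integrable_of_cont_mul (G.continuous.comp retr.continuous) hq
        rw [← integral_add h1 h2]
        congr 1; ext z; simp [mul_add]
      map_smul' := fun c F => by
        simp only [ContinuousMap.coe_smul, Pi.smul_apply, smul_eq_mul, RingHom.id_apply]
        rw [← integral_const_mul]
        congr 1; ext z; ring }
    (∫ z, ‖q z‖ ∂areaD) (fun F => by
      refine (norm_integral_le_integral_norm _).trans ?_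
      rw [← integral_mul_const]
      apply integral_mono
      · exact (integrable_of_cont_mul (F.continuous.comp retr.continuous) hq).norm
      · exact hq.norm.mul_const _
      · intro z
        simp only [norm_mul]
        exact mul_le_mul_of_nonneg_left (F.norm_coe_le_norm _) (norm_nonneg _))

lemma intFun_apply (q : ℂ → ℂ) (hq : Integrable q areaD) (F : C(closedBall (0 : ℂ) 1, ℂ)) :
    intFun q hq F = ∫ z, q z * F (retr z) ∂areaD := rfl

/-- Completeness of the monomials. -/
theorem complete_mono {q : ℂ → ℂ} (hq : Integrable q areaD)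
    (h : ∀ a b : ℕ, ∫ z, q z * mono a b z ∂areaD = 0) : q =ᵐ[areaD] 0 := by
  have key : intFun q hq = 0 := by
    refine sw_functional
      {F | ∃ a b : ℕ, F = ⟨fun z : closedBall (0 : ℂ) 1 => mono a b z, (continuous_mono a b).comp continuous_subtype_val⟩}
      ?_ ?_ ?_ ?_ _ ?_
    · refine ⟨0, 0, ?_⟩
      ext z; simp [mono]
    · rintro f ⟨a, b, rfl⟩ g ⟨a', b', rfl⟩
      refine ⟨a + a', b + b', ?_⟩
      ext z; simp [mono]; ring
    · rintro f ⟨a, b, rfl⟩
      refine ⟨b, a, ?_⟩
      ext z; simp [mono]; ring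
    · intro x y hxy
      refine ⟨_, ⟨1, 0, rfl⟩, ?_⟩
      intro h'
      apply hxy
      ext
      simpa [mono] using h'
    · rintro f ⟨a, b, rfl⟩
      rw [intFun_apply]
      refine Eq.trans ?_ (h a b)
      apply integral_congr_ae
      filter_upwards [ae_mem_ball] with z hz
      simp only [ContinuousMap.coe_mk]
      rw [retr_coe hz]
  have hcont : ∀ F : ℂ → ℂ, Continuous F → ∫ z, q z * F z ∂areaD = 0 := by
    intro F hF
    have h2 : intFun q hq ⟨fun z : closedBall (0 : ℂ) 1 => F z, hF.comp continuous_subtype_val⟩ = 0 := by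
      rw [key]; rfl
    rw [intFun_apply] at h2
    rw [← h2]
    apply integral_congr_ae
    filter_upwards [ae_mem_ball] with z hz
    simp only [ContinuousMap.coe_mk]
    rw [retr_coe hz]
  have hloc : LocallyIntegrable q areaD := hq.locallyIntegrable
  have := ae_eq_zero_of_integral_contDiff_smul_eq_zero hloc (fun g hg _ => by
    have := hcont (fun z => ((g z : ℝ) : ℂ)) (Complex.continuous_ofReal.comp hg.continuous)
    rw [← this]
    apply integral_congr_ae
    filter_upwards with z
    rw [Complex.real_smul, mul_comm])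
  exact this

/-- Radial symbols are orthogonal to off-diagonal monomials. -/
lemma radial_orthogonal {q : ℂ → ℂ} {ρ : ℝ → ℂ} (hρ : ∀ᵐ z ∂areaD, q z = ρ ‖z‖) {a b : ℕ}
    (hab : a ≠ b) : ∫ z, q z * mono a b z ∂areaD = 0 := by
  set w : ℂ := exp (Real.pi / ((a : ℂ) - b) * I) with hw
  have hd : ((a : ℂ) - b) ≠ 0 := by
    intro h0
    apply hab
    exact_mod_cast sub_eq_zero.mp h0
  have hw' : w = exp (((Real.pi / ((a : ℝ) - b) : ℝ) : ℂ) * I) := by
    rw [hw]; push_cast; rfl
  have hnw : ‖w‖ = 1 := by rw [hw', Complex.norm_exp_ofReal_mul_I]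
  let c : Circle := Circle.exp (Real.pi / ((a : ℝ) - b))
  have hc : (c : ℂ) = w := by
    rw [hw']; simp [c, Circle.coe_exp]
  have hmp := measurePreserving_rot c
  have hrot : ∫ z, q ((c : ℂ) * z) * mono a b ((c : ℂ) * z) ∂areaD =
      ∫ z, q z * mono a b z ∂areaD := by
    have hemb : MeasurableEmbedding (fun z : ℂ => (c : ℂ) * z) :=
      (rotation c).toHomeomorph.measurableEmbedding
    exact hmp.integral_comp hemb (fun z => q z * mono a b z)
  have hval : ∀ᵐ z ∂areaD, q ((c : ℂ) * z) * mono a b ((c : ℂ) * z) = -(q z * mono a b z) := by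
    have h1 : ∀ᵐ z ∂areaD, q ((c : ℂ) * z) = ρ ‖(c : ℂ) * z‖ := hmp.quasiMeasurePreserving.ae hρ
    filter_upwards [h1, hρ] with z h1 h2
    rw [h1, norm_mul, Circle.norm_coe, one_mul, ← h2]
    have h3 : mono a b ((c : ℂ) * z) = (w ^ a * (starRingEnd ℂ) w ^ b) * mono a b z := by
      unfold mono
      rw [hc, mul_pow, map_mul, mul_pow]; ring
    have h4 : w ^ a * (starRingEnd ℂ) w ^ b = -1 := by
      have h5 : (starRingEnd ℂ) w = w⁻¹ := by
        rw [Complex.inv_def, Complex.normSq_eq_norm_sq, hnw]; simp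
      rw [h5, inv_pow, ← div_eq_mul_inv, hw, ← Complex.exp_nat_mul, ← Complex.exp_nat_mul,
        ← Complex.exp_sub]
      have : (a : ℂ) * (Real.pi / ((a : ℂ) - b) * I) - (b : ℂ) * (Real.pi / ((a : ℂ) - b) * I) =
          Real.pi * I := by
        field_simp
      rw [this, Complex.exp_pi_mul_I]
    rw [h3, h4]; ring
  rw [integral_congr_ae hval, integral_neg] at hrot
  have h2 : (2 : ℂ) * ∫ z, q z * mono a b z ∂areaD = 0 := by linear_combination -hrot
  exact (mul_eq_zero.mp h2).resolve_left two_ne_zero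

end Pool.Agent.H44
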