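import Mathlib
import Pool.Agent.H44.PolyBasic
import Pool.Agent.H44.Blaschke

set_option autoImplicit false

namespace Pool.Agent.H44

open MeasureTheory Metric Complex Set Filter Topology
open scoped ENNReal ContDiff

/-- `|z|^{2(s+1)}` as a function of the complex variable `s`. -/
noncomputable def wt (s z : ℂ) : ℂ := ((‖z‖ ^ 2 : ℝ) : ℂ) ^ (s + 1)

lemma norm_wt_le {s z : ℂ} (hs : -1 / 2 < s.re) (hz : z ∈ ball (0 : ℂ) 1) : ‖wt s z‖ ≤ 1 := by
  rw [mem_ball_zero_iff] at hz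
  unfold wt
  have hre : 0 < (s + 1).re := by simp; linarith
  have h0 : (0 : ℝ) ≤ ‖z‖ ^ 2 := by positivity
  rw [Complex.norm_cpow_eq_rpow_re_of_nonneg h0 hre.ne']
  exact Real.rpow_le_one h0 (by nlinarith [norm_nonneg z]) hre.le

lemma measurable_wt (s : ℂ) : Measurable (wt s) := by
  unfold wt
  exact (Complex.measurable_ofReal.comp (measurable_norm.pow_const 2)).pow_const _

lemma hasDerivAt_wt {s z : ℂ} (hs : -1 / 2 < s.re) :
    HasDerivAt (fun s' => wt s' z) (wt s z * Complex.log ((‖z‖ ^ 2 : ℝ) : ℂ)) s := by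
  unfold wt
  have hne : s + 1 ≠ 0 := by
    intro h0
    have : (s + 1).re = 0 := by rw [h0]; simp
    simp at this; linarith
  have h := (hasDerivAt_id s).add_const (1 : ℂ)
  have := h.const_cpow (c := ((‖z‖ ^ 2 : ℝ) : ℂ)) (Or.inr hne)
  simpa using this

lemma norm_wt_log_le {s z : ℂ} (hs : -1 / 2 < s.re) (hz : z ∈ ball (0 : ℂ) 1) :
    ‖wt s z * Complex.log ((‖z‖ ^ 2 : ℝ) : ℂ)‖ ≤ 2 := by
  rw [mem_ball_zero_iff] at hz
  by_cases hz0 : z = 0
  · subst hz0
    simp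
  have hpos : 0 < ‖z‖ ^ 2 := by positivity
  have hle : ‖z‖ ^ 2 ≤ 1 := by nlinarith [norm_nonneg z]
  unfold wt
  have hre : (1 / 2 : ℝ) < (s + 1).re := by simp; linarith
  rw [norm_mul, Complex.norm_cpow_eq_rpow_re_of_pos hpos, ← Complex.ofReal_log hpos.le,
    Complex.norm_real, Real.norm_eq_abs]
  have h1 : (‖z‖ ^ 2) ^ (s + 1).re ≤ (‖z‖ ^ 2) ^ (1 / 2 : ℝ) :=
    Real.rpow_le_rpow_of_exponent_ge hpos hle hre.le
  have h2 := Real.abs_log_mul_self_rpow_lt (‖z‖ ^ 2) (1 / 2) hpos hle (by norm_num)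
  rw [abs_mul, abs_of_nonneg (Real.rpow_nonneg hpos.le _)] at h2
  calc (‖z‖ ^ 2) ^ (s + 1).re * |Real.log (‖z‖ ^ 2)| ≤
      (‖z‖ ^ 2) ^ (1 / 2 : ℝ) * |Real.log (‖z‖ ^ 2)| :=
        mul_le_mul_of_nonneg_right h1 (abs_nonneg _)
    _ = |Real.log (‖z‖ ^ 2)| * (‖z‖ ^ 2) ^ (1 / 2 : ℝ) := mul_comm _ _
    _ ≤ 1 / (1 / 2) := h2.le
    _ = 2 := by norm_num

lemma integrable_wt {w : ℂ → ℂ} (hw : Integrable w areaD) {s : ℂ} (hs : -1 / 2 < s.re) :
    Integrable (fun z => w z * wt s z) areaD := by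
  have := hw.bdd_mul (c := 1) (measurable_wt s).aestronglyMeasurable (by
    filter_upwards [ae_mem_ball] with z hz
    exact norm_wt_le hs hz)
  simpa [mul_comm] using this

/-- The moment function is holomorphic. -/
lemma differentiableOn_moment {w : ℂ → ℂ} (hw : Integrable w areaD) :
    DifferentiableOn ℂ (fun s => ∫ z, w z * wt s z ∂areaD) {s | -1 / 2 < s.re} := by
  intro s hs
  have hopen : IsOpen {s : ℂ | -1 / 2 < s.re} := isOpen_lt continuous_const Complex.continuous_re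
  have h := hasDerivAt_integral_of_dominated_loc_of_deriv_le (μ := areaD)
    (F := fun s z => w z * wt s z) (x₀ := s) (s := {s : ℂ | -1 / 2 < s.re})
    (F' := fun s z => w z * (wt s z * Complex.log ((‖z‖ ^ 2 : ℝ) : ℂ)))
    (bound := fun z => ‖w z‖ * 2)
    (hopen.mem_nhds hs) ?_ (integrable_wt hw hs) ?_ ?_ (hw.norm.mul_const 2) ?_
  · exact h.2.differentiableAt.differentiableWithinAt
  · filter_upwards with s'
    exact hw.aestronglyMeasurable.mul (measurable_wt s').aestronglyMeasurable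
  · apply hw.aestronglyMeasurable.mul
    apply Measurable.aestronglyMeasurable
    exact (measurable_wt s).mul (Complex.measurable_log.comp
      (Complex.measurable_ofReal.comp (measurable_norm.pow_const 2)))
  · filter_upwards [ae_mem_ball] with z hz s' hs'
    rw [norm_mul]
    exact mul_le_mul_of_nonneg_left (norm_wt_log_le hs' hz) (norm_nonneg _)
  · filter_upwards with z s' hs'
    exact (hasDerivAt_wt hs').const_mul _

lemma norm_moment_le {w : ℂ → ℂ} (hw : Integrable w areaD) {s : ℂ} (hs : -1 / 2 < s.re) :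
    ‖∫ z, w z * wt s z ∂areaD‖ ≤ ∫ z, ‖w z‖ ∂areaD := by
  refine (norm_integral_le_integral_norm _).trans ?_
  apply integral_mono_ae (integrable_wt hw hs).norm hw.norm
  filter_upwards [ae_mem_ball] with z hz
  simp only [norm_mul]
  have := norm_wt_le hs hz
  nlinarith [norm_nonneg (w z)]

lemma wt_nat (m : ℕ) (z : ℂ) : wt m z = mono (m + 1) (m + 1) z := by
  unfold wt mono
  have : ((m : ℂ) + 1) = ((m + 1 : ℕ) : ℂ) := by push_cast; rfl
  rw [this, Complex.cpow_natCast, ← mul_pow, Complex.mul_conj, Complex.normSq_eq_norm_sq]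

/-- The determinant of a matrix of moment functions is holomorphic and bounded; if it vanishes at
many integers it vanishes at all integers. -/
lemma det_moment_unique {N : ℕ} (w : Fin N → Fin N → ℂ → ℂ)
    (hw : ∀ i j, Integrable (w i j) areaD) (Z : Set ℕ)
    (hZ : ∀ m ∈ Z, (Matrix.of fun i j => ∫ z, w i j z * mono (m + 1) (m + 1) z ∂areaD).det = 0)
    (hdiv : ¬ Summable (Z.indicator (fun m : ℕ => 1 / ((m : ℝ) + 1)))) (m : ℕ) :
    (Matrix.of fun i j => ∫ z, w i j z * mono (m + 1) (m + 1) z ∂areaD).det = 0 := by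
  set D : ℂ → ℂ := fun s => (Matrix.of fun i j => ∫ z, w i j z * wt s z ∂areaD).det with hD
  have hDm : ∀ m : ℕ, D (m : ℂ) =
      (Matrix.of fun i j => ∫ z, w i j z * mono (m + 1) (m + 1) z ∂areaD).det := by
    intro m
    simp only [hD, wt_nat]
  rw [← hDm]
  have hDexp : D = fun s => ∑ σ : Equiv.Perm (Fin N), (Equiv.Perm.sign σ : ℤ) •
      ∏ i, ∫ z, w (σ i) i z * wt s z ∂areaD := by
    ext s
    rw [hD]
    simp only [Matrix.det_apply, Matrix.of_apply]
    rfl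
  have hdiff : DifferentiableOn ℂ D {s | -1 / 2 < s.re} := by
    rw [hDexp]
    apply DifferentiableOn.fun_sum
    intro σ _
    have h1 : DifferentiableOn ℂ (fun s => ∏ i, ∫ z, w (σ i) i z * wt s z ∂areaD)
        {s | -1 / 2 < s.re} := by
      apply DifferentiableOn.fun_finsetProd
      intro i _
      exact differentiableOn_moment (hw _ _)
    have h2 : (fun s => (Equiv.Perm.sign σ : ℤ) • ∏ i, ∫ z, w (σ i) i z * wt s z ∂areaD) =
        fun s => (((Equiv.Perm.sign σ : ℤ) : ℂ)) * ∏ i, ∫ z, w (σ i) i z * wt s z ∂areaD := by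
      ext s
      rw [zsmul_eq_mul]
    rw [h2]
    exact h1.const_mul _
  have hbound : ∀ s : ℂ, -1 / 2 < s.re → ‖D s‖ ≤ ∑ σ : Equiv.Perm (Fin N),
      ∏ i, ∫ z, ‖w (σ i) i z‖ ∂areaD := by
    intro s hs
    rw [hDexp]
    refine (norm_sum_le _ _).trans (Finset.sum_le_sum fun σ _ => ?_)
    rw [zsmul_eq_mul, norm_mul]
    have hsgn : ‖(((Equiv.Perm.sign σ : ℤ) : ℂ))‖ = 1 := by
      rcases Int.units_eq_one_or (Equiv.Perm.sign σ) with h | h <;> simp [h]
    rw [hsgn, one_mul, norm_prod]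
    exact Finset.prod_le_prod (fun _ _ => norm_nonneg _) fun i _ => norm_moment_le (hw _ _) hs
  exact halfplane_unique hdiff hbound Z (fun m hm => by rw [hDm]; exact hZ m hm) hdiv m

lemma ae_eval_normSq_ne {P : Polynomial ℂ} (hP : P ≠ 0) :
    ∀ᵐ z ∂areaD, P.eval ((‖z‖ ^ 2 : ℝ) : ℂ) ≠ 0 := by
  apply ae_areaD_of_ae
  have hsub : {z : ℂ | ¬ P.eval ((‖z‖ ^ 2 : ℝ) : ℂ) ≠ 0} ⊆
      ⋃ r ∈ (P.roots.toFinset : Set ℂ), sphere (0 : ℂ) (Real.sqrt r.re) := by
    intro z hz
    simp only [ne_eq, not_not, mem_ofPred_eq] at hz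
    have hr : ((‖z‖ ^ 2 : ℝ) : ℂ) ∈ P.roots.toFinset := by
      rw [Multiset.mem_toFinset, Polynomial.mem_roots hP]; exact hz
    rw [mem_iUnion₂]
    refine ⟨_, hr, ?_⟩
    rw [mem_sphere_zero_iff_norm, Complex.ofReal_re, Real.sqrt_sq (norm_nonneg _)]
  rw [ae_iff]
  refine measure_mono_null hsub ?_
  rw [measure_biUnion_null_iff (Finset.countable_toSet _)]
  intro r _
  exact Measure.addHaar_sphere _ _ _

lemma ae_eval_ne {P : Polynomial ℂ} (hP : P ≠ 0) : ∀ᵐ z ∂areaD, P.eval z ≠ 0 := by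
  apply ae_areaD_of_ae
  rw [ae_iff]
  have : {z : ℂ | ¬ P.eval z ≠ 0} ⊆ (P.roots.toFinset : Set ℂ) := by
    intro z hz
    simp only [ne_eq, not_not, mem_ofPred_eq] at hz
    simp only [Finset.mem_coe, Multiset.mem_toFinset, Polynomial.mem_roots hP]
    exact hz
  exact measure_mono_null this ((Finset.finite_toSet _).measure_zero _)

end Pool.Agent.H44
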