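import Mathlib

set_option autoImplicit false

namespace Pool.Agent.H44

open MeasureTheory Metric Set Filter Topology
open scoped ENNReal ContDiff

/-- Test functions on `(0,1)`. -/
def IsTest1 (Θ : ℝ → ℂ) : Prop :=
  ContDiff ℝ ∞ Θ ∧ HasCompactSupport Θ ∧ tsupport Θ ⊆ Ioo (0 : ℝ) 1

lemma IsTest1.zero_of_notMem {Θ : ℝ → ℂ} (h : IsTest1 Θ) {t : ℝ} (ht : t ∉ Ioo (0 : ℝ) 1) :
    Θ t = 0 := image_eq_zero_of_notMem_tsupport (fun hm => ht (h.2.2 hm))

lemma IsTest1.deriv {Θ : ℝ → ℂ} (h : IsTest1 Θ) : IsTest1 (deriv Θ) := by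
  obtain ⟨h1, h2, h3⟩ := h
  refine ⟨(contDiff_infty_iff_deriv.mp h1).2, h2.deriv, ?_⟩
  exact (tsupport_deriv_subset (f := Θ)).trans h3

lemma IsTest1.deriv_iterate {Θ : ℝ → ℂ} (h : IsTest1 Θ) (n : ℕ) :
    IsTest1 (_root_.deriv^[n] Θ) := by
  induction n with
  | zero => exact h
  | succ n ih => rw [Function.iterate_succ_apply']; exact ih.deriv

lemma IsTest1.add {Θ Ψ : ℝ → ℂ} (h : IsTest1 Θ) (h' : IsTest1 Ψ) : IsTest1 (Θ + Ψ) := by
  refine ⟨h.1.add h'.1, h.2.1.add h'.2.1, ?_⟩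
  exact (tsupport_add Θ Ψ).trans (union_subset h.2.2 h'.2.2)

lemma IsTest1.const_smul {Θ : ℝ → ℂ} (h : IsTest1 Θ) (c : ℂ) : IsTest1 (c • Θ) := by
  refine ⟨h.1.const_smul c, ?_, ?_⟩
  · exact h.2.1.smul_left (f := fun _ => c)
  · exact (tsupport_smul_subset_right (fun _ => c) Θ).trans h.2.2

lemma IsTest1.mul_left {Θ F : ℝ → ℂ} (h : IsTest1 Θ) (hF : ContDiff ℝ ∞ F) :
    IsTest1 (fun t => F t * Θ t) := by
  refine ⟨hF.mul h.1, h.2.1.mul_left, ?_⟩
  exact (tsupport_mul_subset_right (f := F) (g := Θ)).trans h.2.2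

lemma IsTest1.integrable {Θ : ℝ → ℂ} (h : IsTest1 Θ) : Integrable Θ :=
  h.1.continuous.integrable_of_hasCompactSupport h.2.1

lemma IsTest1.exists_Icc {Θ : ℝ → ℂ} (h : IsTest1 Θ) :
    ∃ a b : ℝ, 0 < a ∧ a ≤ b ∧ b < 1 ∧ tsupport Θ ⊆ Icc a b := by
  by_cases hne : (tsupport Θ).Nonempty
  · have hK : IsCompact (tsupport Θ) := h.2.1
    have h1 := hK.sInf_mem hne
    have h2 := hK.sSup_mem hne
    refine ⟨sInf (tsupport Θ), sSup (tsupport Θ), (h.2.2 h1).1, ?_, (h.2.2 h2).2, ?_⟩
    · exact csInf_le hK.bddBelow h2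
    · intro t ht
      exact ⟨csInf_le hK.bddBelow ht, le_csSup hK.bddAbove ht⟩
  · rw [not_nonempty_iff_eq_empty] at hne
    exact ⟨1 / 2, 1 / 2, by norm_num, le_rfl, by norm_num, by rw [hne]; exact empty_subset _⟩

/-- A test function of integral zero is the derivative of a test function. -/
lemma exists_primitive {Θ : ℝ → ℂ} (h : IsTest1 Θ) (h0 : ∫ t, Θ t = 0) :
    ∃ Ψ : ℝ → ℂ, IsTest1 Ψ ∧ deriv Ψ = Θ := by
  obtain ⟨a, b, ha, hab, hb, hsupp⟩ := h.exists_Icc
  have hcont := h.1.continuous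
  set Ψ : ℝ → ℂ := fun t => ∫ s in (0 : ℝ)..t, Θ s with hΨ
  have hder : ∀ t, HasDerivAt Ψ (Θ t) t := by
    intro t
    exact intervalIntegral.integral_hasDerivAt_right (hcont.intervalIntegrable _ _)
      (hcont.stronglyMeasurableAtFilter _ _) hcont.continuousAt
  have hderiv : deriv Ψ = Θ := by
    ext t; exact (hder t).deriv
  have hsm : ContDiff ℝ ∞ Ψ := by
    rw [contDiff_infty_iff_deriv]
    refine ⟨fun t => (hder t).differentiableAt, ?_⟩
    rw [hderiv]; exact h.1
  have hzero : ∀ t, t ∉ Icc a b → Θ t = 0 := fun t ht =>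
    image_eq_zero_of_notMem_tsupport (fun hm => ht (hsupp hm))
  have hΨ0 : ∀ t, t ∉ Icc a b → Ψ t = 0 := by
    intro t ht
    by_cases hta : t < a
    · simp only [hΨ]
      apply intervalIntegral.integral_zero_ae
      apply Eventually.of_forall
      intro s hs
      apply hzero
      intro hm
      have h1 : s ≤ max 0 t := by
        rw [uIoc_eq_union] at hs
        rcases hs with hs | hs
        · exact le_trans hs.2 (le_max_right _ _)
        · exact le_trans hs.2 (le_max_left _ _)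
      have h2 : max 0 t < a := max_lt ha hta
      linarith [hm.1]
    · have htb : b < t := by
        by_contra hcon
        exact ht ⟨not_lt.mp hta, not_lt.mp hcon⟩
      have ht0 : 0 ≤ t := by linarith
      simp only [hΨ]
      rw [intervalIntegral.integral_of_le ht0, ← h0]
      apply setIntegral_eq_integral_of_forall_compl_eq_zero
      intro s hs
      apply hzero
      intro hm
      apply hs
      exact ⟨by linarith [hm.1], by linarith [hm.2]⟩
  have hts : tsupport Ψ ⊆ Icc a b := by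
    apply closure_minimal _ isClosed_Icc
    intro t ht
    by_contra hcon
    exact ht (hΨ0 t hcon)
  refine ⟨Ψ, ⟨hsm, ?_, ?_⟩, hderiv⟩
  · exact HasCompactSupport.of_support_subset_isCompact isCompact_Icc
      ((subset_tsupport _).trans hts)
  · exact hts.trans (fun t ht => ⟨by linarith [ht.1], by linarith [ht.2]⟩)

/-- A test function with integral one. -/
lemma exists_test_integral_one : ∃ η : ℝ → ℂ, IsTest1 η ∧ ∫ t, η t = 1 := by
  let B : ContDiffBump (1 / 2 : ℝ) := ⟨1 / 8, 1 / 4, by norm_num, by norm_num⟩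
  have hpos : 0 < ∫ t, B t := B.integral_pos
  refine ⟨fun t => (((∫ t, B t)⁻¹ * B t : ℝ) : ℂ), ⟨?_, ?_, ?_⟩, ?_⟩
  · exact Complex.ofRealCLM.contDiff.comp (contDiff_const.mul B.contDiff)
  · have h1 := B.hasCompactSupport
    have : HasCompactSupport (fun t => (∫ t, B t)⁻¹ * B t) := h1.mul_left
    exact this.comp_left (g := fun x : ℝ => (x : ℂ)) Complex.ofReal_zero
  · have h1 : tsupport (fun t => (((∫ t, B t)⁻¹ * B t : ℝ) : ℂ)) ⊆ tsupport B := by
      apply closure_mono
      intro t ht hB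
      apply ht
      simp only
      rw [hB]; simp
    refine h1.trans ?_
    rw [B.tsupport_eq]
    intro t ht
    rw [mem_closedBall, Real.dist_eq, abs_le] at ht
    have h2 : B.rOut = 1 / 4 := rfl
    rw [h2] at ht
    constructor <;> linarith [ht.1, ht.2]
  · have h1 : ∫ t, (((∫ t, B t)⁻¹ * B t : ℝ) : ℂ) = ((∫ t, (∫ t, B t)⁻¹ * B t : ℝ) : ℂ) :=
      integral_ofReal
    rw [h1, integral_const_mul, inv_mul_cancel₀ hpos.ne']
    simp

open Polynomial in
lemma exists_poly_primitive {n : ℕ} {P : ℂ[X]} (hP : P.degree < (n : WithBot ℕ)) :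
    ∃ Q : ℂ[X], Q.degree < ((n + 1 : ℕ) : WithBot ℕ) ∧ derivative Q = P := by
  refine ⟨∑ k ∈ Finset.range n, C (P.coeff k / (k + 1)) * X ^ (k + 1), ?_, ?_⟩
  · refine lt_of_le_of_lt (degree_sum_le _ _) ?_
    rw [Finset.sup_lt_iff (WithBot.bot_lt_coe _)]
    intro k hk
    refine lt_of_le_of_lt (degree_C_mul_X_pow_le _ _) ?_
    have : k < n := Finset.mem_range.mp hk
    exact_mod_cast (by omega : k + 1 < n + 1)
  · rw [derivative_sum]
    have h1 : ∀ k ∈ Finset.range n, derivative (C (P.coeff k / (k + 1)) * X ^ (k + 1)) =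
        C (P.coeff k) * X ^ k := by
      intro k _
      rw [derivative_C_mul_X_pow]
      have : ((k : ℂ) + 1) ≠ 0 := by exact_mod_cast Nat.succ_ne_zero k
      have h2 : P.coeff k / ((k : ℂ) + 1) * ((k + 1 : ℕ) : ℂ) = P.coeff k := by
        push_cast; field_simp
      rw [h2]
      rfl
    rw [Finset.sum_congr rfl h1]
    ext m
    rw [finsetSum_coeff]
    simp only [coeff_C_mul_X_pow]
    rw [Finset.sum_ite_eq]
    split_ifs with hm
    · rfl
    · rw [Finset.mem_range, not_lt] at hm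
      symm
      apply coeff_eq_zero_of_degree_lt
      exact lt_of_lt_of_le hP (by exact_mod_cast hm)

open Polynomial in
lemma contDiff_polyeval (P : ℂ[X]) : ContDiff ℝ ∞ (fun t : ℝ => P.eval (t : ℂ)) := by
  have h1 : ContDiff ℂ ∞ (fun z : ℂ => P.eval z) := by
    simpa using P.contDiff_aeval (n := ∞) (𝕜 := ℂ)
  exact (h1.restrict_scalars ℝ).comp Complex.ofRealCLM.contDiff

open Polynomial in
/-- A linear functional on test functions of `(0,1)` killing all `n`-th derivatives is given by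
integration against a polynomial of degree `< n`. -/
theorem functional_poly (n : ℕ) : ∀ Λ : (ℝ → ℂ) → ℂ,
    (∀ Θ Ψ, IsTest1 Θ → IsTest1 Ψ → Λ (Θ + Ψ) = Λ Θ + Λ Ψ) →
    (∀ (c : ℂ) Θ, IsTest1 Θ → Λ (c • Θ) = c * Λ Θ) →
    (∀ Ψ, IsTest1 Ψ → Λ (deriv^[n] Ψ) = 0) →
    ∃ P : ℂ[X], P.degree < (n : WithBot ℕ) ∧
      ∀ Θ, IsTest1 Θ → Λ Θ = ∫ t : ℝ, P.eval (t : ℂ) * Θ t := by
  induction n with
  | zero =>
    intro Λ _ _ h
    refine ⟨0, by rw [degree_zero]; exact WithBot.bot_lt_coe _, fun Θ hΘ => ?_⟩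
    have := h Θ hΘ
    simp only [Function.iterate_zero, id_eq] at this
    rw [this]; simp
  | succ n ih =>
    intro Λ hadd hsmul h
    obtain ⟨P, hPd, hP⟩ := ih (fun Θ => Λ (deriv Θ))
      (by
        intro Θ Ψ hΘ hΨ
        have : deriv (Θ + Ψ) = deriv Θ + deriv Ψ := by
          ext t
          exact deriv_add (hΘ.1.differentiable (by simp) t) (hΨ.1.differentiable (by simp) t)
        simp only [this]
        exact hadd _ _ hΘ.deriv hΨ.deriv)
      (by
        intro c Θ hΘ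
        have : deriv (c • Θ) = c • deriv Θ := by
          ext t
          exact deriv_const_smul c (hΘ.1.differentiable (by simp) t)
        simp only [this]
        exact hsmul _ _ hΘ.deriv)
      (by
        intro Ψ hΨ
        have := h Ψ hΨ
        rwa [Function.iterate_succ_apply'] at this)
    obtain ⟨Q, hQd, hQ⟩ := exists_poly_primitive (n := n) (P := -P) (by rwa [degree_neg])
    obtain ⟨η, hη, hη1⟩ := exists_test_integral_one
    have hcP := contDiff_polyeval Q
    -- integration by parts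
    have hparts : ∀ Ψ, IsTest1 Ψ → ∫ t : ℝ, Q.eval (t : ℂ) * deriv Ψ t =
        ∫ t : ℝ, P.eval (t : ℂ) * Ψ t := by
      intro Ψ hΨ
      have hu : ∀ x ∈ tsupport Ψ, HasDerivAt (fun t : ℝ => Q.eval (t : ℂ))
          ((derivative Q).eval (x : ℂ)) x := fun x _ => (Q.hasDerivAt (x : ℂ)).comp_ofReal
      have hv : ∀ x ∈ tsupport (fun t : ℝ => Q.eval (t : ℂ)), HasDerivAt Ψ (deriv Ψ x) x :=
        fun x _ => (hΨ.1.differentiable (by simp) x).hasDerivAt
      have := integral_mul_deriv_eq_deriv_mul_of_integrable hu hv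
        (hΨ.deriv.mul_left hcP).integrable
        (hΨ.mul_left (contDiff_polyeval (derivative Q))).integrable
        (hΨ.mul_left hcP).integrable
      rw [this, hQ, ← integral_neg]
      congr 1
      ext t
      rw [eval_neg]; ring
    refine ⟨Q + C (Λ η - ∫ t : ℝ, Q.eval (t : ℂ) * η t), ?_, fun Θ hΘ => ?_⟩
    · refine lt_of_le_of_lt (degree_add_le _ _) (max_lt hQd ?_)
      refine lt_of_le_of_lt degree_C_le ?_
      exact_mod_cast Nat.succ_pos n
    · set m := ∫ t, Θ t with hm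
      have hΘ' : IsTest1 (Θ + (-m) • η) := hΘ.add (hη.const_smul (-m))
      have hint0 : ∫ t, (Θ + (-m) • η) t = 0 := by
        simp only [Pi.add_apply, Pi.smul_apply]
        have h5 : Integrable (fun t => (-m) • η t) := hη.integrable.smul (-m)
        rw [integral_add hΘ.integrable h5, integral_smul, hη1, ← hm]
        simp
      obtain ⟨Ψ, hΨ, hΨd⟩ := exists_primitive hΘ' hint0
      have h1 : Λ (Θ + (-m) • η) = ∫ t : ℝ, Q.eval (t : ℂ) * (Θ + (-m) • η) t := by
        rw [← hΨd, hparts Ψ hΨ]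
        exact hP Ψ hΨ
      rw [hadd _ _ hΘ (hη.const_smul _), hsmul _ _ hη] at h1
      have h2 : ∫ t : ℝ, Q.eval (t : ℂ) * (Θ + (-m) • η) t =
          (∫ t : ℝ, Q.eval (t : ℂ) * Θ t) + (-m) * ∫ t : ℝ, Q.eval (t : ℂ) * η t := by
        rw [← integral_const_mul, ← integral_add (hΘ.mul_left hcP).integrable
          ((hη.mul_left hcP).integrable.const_mul (-m))]
        congr 1
        ext t
        simp only [Pi.add_apply, Pi.smul_apply, smul_eq_mul]
        ring
      rw [h2] at h1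
      have h3 : ∫ t : ℝ, (Q + C (Λ η - ∫ t : ℝ, Q.eval (t : ℂ) * η t)).eval (t : ℂ) * Θ t =
          (∫ t : ℝ, Q.eval (t : ℂ) * Θ t) + (Λ η - ∫ t : ℝ, Q.eval (t : ℂ) * η t) * m := by
        rw [hm, ← integral_const_mul, ← integral_add (hΘ.mul_left hcP).integrable
          (hΘ.integrable.const_mul _)]
        congr 1
        ext t
        rw [eval_add, eval_C]
        ring
      rw [h3]
      linear_combination h1

end Pool.Agent.H44
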