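import Mathlib
import Pool.Agent.H44.PolyBasic
import Pool.Agent.H44.Test1D

set_option autoImplicit false

namespace Pool.Agent.H44

open MeasureTheory Metric Complex Set Filter Topology
open scoped ENNReal ContDiff

/-- `z^{-m} Θ(|z|²)`. -/
noncomputable def lift (m : ℕ) (Θ : ℝ → ℂ) (z : ℂ) : ℂ := (z ^ m)⁻¹ * Θ (‖z‖ ^ 2)

lemma lift_eventually_zero (m : ℕ) {Θ : ℝ → ℂ} (h : IsTest1 Θ) :
    ∀ᶠ z in 𝓝 (0 : ℂ), lift m Θ z = 0 := by
  obtain ⟨a, b, ha, hab, hb, hsupp⟩ := h.exists_Icc
  have hc : Continuous (fun z : ℂ => ‖z‖ ^ 2) := by fun_prop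
  have h0 : (fun z : ℂ => ‖z‖ ^ 2) 0 < a := by simpa using ha
  filter_upwards [hc.continuousAt.eventually_lt continuousAt_const h0] with z hz
  unfold lift
  rw [image_eq_zero_of_notMem_tsupport (f := Θ) (fun hm => ?_), mul_zero]
  have := (hsupp hm).1
  linarith

lemma IsTest1.lift {Θ : ℝ → ℂ} (h : IsTest1 Θ) (m : ℕ) : IsTest (lift m Θ) := by
  obtain ⟨a, b, ha, hab, hb, hsupp⟩ := h.exists_Icc
  have hc : Continuous (fun z : ℂ => ‖z‖ ^ 2) := by fun_prop
  have hts : tsupport (Pool.Agent.H44.lift m Θ) ⊆ {z : ℂ | ‖z‖ ^ 2 ∈ tsupport Θ} := by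
    apply closure_minimal _ ((isClosed_tsupport Θ).preimage hc)
    intro z hz
    apply subset_tsupport
    intro h0
    apply hz
    unfold Pool.Agent.H44.lift
    rw [h0, mul_zero]
  have hball : {z : ℂ | ‖z‖ ^ 2 ∈ tsupport Θ} ⊆ ball (0 : ℂ) 1 := by
    intro z hz
    have := (hsupp hz).2
    rw [mem_ball_zero_iff]
    nlinarith [norm_nonneg z]
  refine ⟨?_, ?_, hts.trans hball⟩
  · rw [contDiff_iff_contDiffAt]
    intro z
    by_cases hz : z = 0
    · subst hz
      exact contDiffAt_const.congr_of_eventuallyEq (lift_eventually_zero m h)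
    · apply ContDiffAt.mul
      · apply ContDiffAt.inv
        · exact (contDiff_id.pow m).contDiffAt
        · exact pow_ne_zero m hz
      · exact (h.1.comp (contDiff_norm_sq ℝ)).contDiffAt
  · apply IsCompact.of_isClosed_subset (isCompact_closedBall (0 : ℂ) 1) (isClosed_tsupport _)
    exact (hts.trans hball).trans ball_subset_closedBall

lemma dbar_lift (m : ℕ) {Θ : ℝ → ℂ} (h : IsTest1 Θ) :
    dbar (lift (m + 1) Θ) = lift m (deriv Θ) := by
  ext z
  by_cases hz : z = 0
  · subst hz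
    have h0 : deriv Θ 0 = 0 := h.deriv.zero_of_notMem (by simp)
    have h1 : fderiv ℝ (lift (m + 1) Θ) 0 = 0 := by
      have : lift (m + 1) Θ =ᶠ[𝓝 0] fun _ => 0 := lift_eventually_zero (m + 1) h
      rw [this.fderiv_eq]; simp
    unfold dbar
    rw [h1]
    simp [lift, h0]
  · have hzm : z ^ (m + 1) ≠ 0 := pow_ne_zero _ hz
    have hG : HasDerivAt (fun z : ℂ => (z ^ (m + 1))⁻¹)
        (-(((m + 1 : ℕ) : ℂ) * z ^ m) / (z ^ (m + 1)) ^ 2) z := by
      have := (hasDerivAt_pow (m + 1) z).fun_inv hzm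
      simpa using this
    have hG' := hG.hasFDerivAt.restrictScalars ℝ
    have hN : HasFDerivAt (fun z : ℂ => ‖z‖ ^ 2) (2 • (innerSL ℝ z)) z :=
      (hasStrictFDerivAt_norm_sq z).hasFDerivAt
    have hΘ : HasDerivAt Θ (deriv Θ (‖z‖ ^ 2)) (‖z‖ ^ 2) :=
      (h.1.differentiable (by simp) _).hasDerivAt
    have hcomp := hΘ.hasFDerivAt.comp z hN
    have hprod := hG'.mul hcomp
    have hf : HasFDerivAt (lift (m + 1) Θ) _ z := hprod
    unfold dbar
    rw [hf.fderiv]
    simp only [_root_.add_apply, _root_.smul_apply,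
      ContinuousLinearMap.coe_restrictScalars', ContinuousLinearMap.comp_apply,
      ContinuousLinearMap.toSpanSingleton_apply, innerSL_apply_apply, Function.comp_apply,
      smul_eq_mul, Complex.inner, nsmul_eq_mul]
    simp only [lift]
    have e1 : (1 * (starRingEnd ℂ) z).re = z.re := by simp
    have e2 : (I * (starRingEnd ℂ) z).re = z.im := by simp
    rw [e1, e2, Complex.real_smul, Complex.real_smul]
    have e3 : (z.re : ℂ) + z.im * I = z := Complex.re_add_im z
    have e4 : (z ^ (m + 1))⁻¹ * z = (z ^ m)⁻¹ := by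
      rw [pow_succ, mul_inv, mul_assoc, inv_mul_cancel₀ hz, mul_one]
    rw [← e4]
    push_cast
    linear_combination (Θ (‖z‖ ^ 2) * (-(((m : ℂ) + 1) * z ^ m) / (z ^ (m + 1)) ^ 2) / 2) * I_sq +
      ((z ^ (m + 1))⁻¹ * deriv Θ (‖z‖ ^ 2)) * e3

lemma dbar_iterate_lift (m n : ℕ) {Θ : ℝ → ℂ} (h : IsTest1 Θ) :
    dbar^[n] (lift (m + n) Θ) = lift m (deriv^[n] Θ) := by
  induction n generalizing Θ with
  | zero => rfl
  | succ n ih =>
    rw [Function.iterate_succ_apply, ← add_assoc, dbar_lift (m + n) h, ih h.deriv,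
      Function.iterate_succ_apply]

/-- Radial integration. -/
lemma integral_radial {Θ : ℝ → ℂ} (h : IsTest1 Θ) :
    ∫ z : ℂ, Θ (‖z‖ ^ 2) ∂areaD = ∫ t, Θ t := by
  rw [integral_areaD]
  have h1 : ∫ z in ball (0 : ℂ) 1, Θ (‖z‖ ^ 2) = ∫ z : ℂ, Θ (‖z‖ ^ 2) := by
    apply setIntegral_eq_integral_of_forall_compl_eq_zero
    intro z hz
    apply h.zero_of_notMem
    intro hm
    apply hz
    rw [mem_ball_zero_iff]
    nlinarith [hm.2, norm_nonneg z]
  have h2 := integral_fun_norm_addHaar (volume : Measure ℂ) (fun r => Θ (r ^ 2))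
  have h3 : ∫ y in Ioi (0 : ℝ), y ^ (Module.finrank ℝ ℂ - 1) • Θ (y ^ 2) =
      (1 / 2 : ℝ) • ∫ t, Θ t := by
    have h4 := integral_comp_rpow_Ioi_of_pos (g := Θ) (p := 2) two_pos
    have h5 : ∫ y in Ioi (0 : ℝ), Θ y = ∫ t, Θ t := by
      apply setIntegral_eq_integral_of_forall_compl_eq_zero
      intro t ht
      apply h.zero_of_notMem
      intro hm
      exact ht hm.1
    rw [← h5, ← h4, ← integral_smul]
    apply setIntegral_congr_fun measurableSet_Ioi
    intro y hy
    simp only [Complex.finrank_real_complex]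
    have : (2 : ℝ) - 1 = 1 := by norm_num
    rw [this, Real.rpow_one, Real.rpow_two, smul_smul]
    congr 1
    norm_num
    ring
  rw [h1, h2, h3]
  have h6 : (volume : Measure ℂ).real (ball 0 1) = Real.pi := by
    simp [Measure.real, Complex.volume_ball]
  rw [h6, Complex.finrank_real_complex, nsmul_eq_mul, ← smul_assoc]
  simp only [smul_eq_mul, Complex.real_smul]
  push_cast
  have hpi : (Real.pi : ℂ) ≠ 0 := by exact_mod_cast Real.pi_ne_zero
  field_simp

lemma ae_eval_ne_X : ∀ᵐ z ∂areaD, z ≠ (0 : ℂ) := by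
  apply ae_areaD_of_ae
  rw [ae_iff]
  simp

/-- Smooth cutoffs on `(0,1)` increasing to one. -/
lemma exists_cutoff : ∃ χ : ℕ → ℝ → ℂ, (∀ j, IsTest1 (χ j)) ∧ (∀ j t, ‖χ j t‖ ≤ 1) ∧
    ∀ t ∈ Ioo (0 : ℝ) 1, Tendsto (fun j => χ j t) atTop (𝓝 1) := by
  let B : ℕ → ContDiffBump (1 / 2 : ℝ) := fun j =>
    ⟨1 / 2 - 1 / ((j : ℝ) + 3), 1 / 2 - 1 / (2 * ((j : ℝ) + 3)), by
      have : 1 / ((j : ℝ) + 3) < 1 / 2 := by
        apply one_div_lt_one_div_of_lt two_pos
        have : (0 : ℝ) ≤ j := Nat.cast_nonneg j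
        linarith
      linarith, by
      have h3 : (0 : ℝ) < (j : ℝ) + 3 := by positivity
      have : 1 / (2 * ((j : ℝ) + 3)) < 1 / ((j : ℝ) + 3) := by
        apply one_div_lt_one_div_of_lt h3
        linarith
      linarith⟩
  refine ⟨fun j t => ((B j t : ℝ) : ℂ), ?_, ?_, ?_⟩
  · intro j
    refine ⟨Complex.ofRealCLM.contDiff.comp (B j).contDiff, ?_, ?_⟩
    · exact (B j).hasCompactSupport.comp_left (g := fun x : ℝ => (x : ℂ)) Complex.ofReal_zero
    · have h1 : tsupport (fun t => ((B j t : ℝ) : ℂ)) ⊆ tsupport (B j) := by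
        apply closure_mono
        intro t ht hB
        apply ht
        simp only
        rw [hB]; simp
      refine h1.trans ?_
      rw [(B j).tsupport_eq]
      intro t ht
      rw [mem_closedBall, Real.dist_eq, abs_le] at ht
      have h2 : (B j).rOut = 1 / 2 - 1 / (2 * ((j : ℝ) + 3)) := rfl
      rw [h2] at ht
      have h3 : 0 < 1 / (2 * ((j : ℝ) + 3)) := by positivity
      constructor <;> linarith [ht.1, ht.2]
  · intro j t
    rw [Complex.norm_real, Real.norm_of_nonneg (B j).nonneg]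
    exact (B j).le_one
  · intro t ht
    apply tendsto_const_nhds.congr'
    have hm : 0 < min t (1 - t) := lt_min ht.1 (by linarith [ht.2])
    obtain ⟨N, hN⟩ := exists_nat_gt (1 / min t (1 - t))
    filter_upwards [eventually_ge_atTop N] with j hj
    symm
    have hj' : (N : ℝ) ≤ j := by exact_mod_cast hj
    have h4 : 1 / ((j : ℝ) + 3) < min t (1 - t) := by
      rw [div_lt_iff₀ (by positivity)]
      rw [div_lt_iff₀ hm] at hN
      nlinarith
    have h5 : B j t = 1 := by
      apply (B j).one_of_mem_closedBall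
      rw [mem_closedBall, Real.dist_eq, abs_le]
      have h6 : (B j).rIn = 1 / 2 - 1 / ((j : ℝ) + 3) := rfl
      rw [h6]
      have h7 := lt_of_lt_of_le h4 (min_le_left _ _)
      have h8 := lt_of_lt_of_le h4 (min_le_right _ _)
      constructor <;> linarith
    rw [h5]; simp

/-- The radial polynomial function `z^K P(|z|²)`. -/
noncomputable def zpoly (K : ℕ) (P : Polynomial ℂ) (z : ℂ) : ℂ :=
  z ^ K * P.eval ((‖z‖ ^ 2 : ℝ) : ℂ)

lemma continuous_zpoly (K : ℕ) (P : Polynomial ℂ) : Continuous (zpoly K P) := by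
  unfold zpoly
  exact (continuous_pow K).mul (P.continuous.comp (Complex.continuous_ofReal.comp
    (continuous_norm.pow 2)))

lemma continuous_lift (m : ℕ) {Θ : ℝ → ℂ} (h : IsTest1 Θ) : Continuous (lift m Θ) :=
  (h.lift m).1.continuous

/-- **Sector lemma.** If `u ∈ A²_n` and `K ≥ 0` then the moments of `u` against
`z^{K+b} z̄^b` are those of some `z^K P(|z|²)` with `deg P < n`. -/
theorem sector (n K : ℕ) (u : Lp ℂ 2 areaD) (hu : u ∈ polyBergman n) :
    ∃ P : Polynomial ℂ, P.degree < (n : WithBot ℕ) ∧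
      ∀ b : ℕ, ∫ z, (u z - zpoly K P z) * mono b (K + b) z ∂areaD = 0 := by
  have huint : Integrable u areaD := (Lp.memLp u).integrable (by norm_num)
  obtain ⟨P, hPd, hP⟩ := functional_poly n (fun Θ => ∫ z, u z * lift K Θ z ∂areaD)
    (by
      intro Θ Ψ hΘ hΨ
      rw [← integral_add (integrable_of_cont_mul (continuous_lift K hΘ) huint)
        (integrable_of_cont_mul (continuous_lift K hΨ) huint)]
      congr 1
      ext z
      simp only [lift, Pi.add_apply]
      ring)
    (by
      intro c Θ hΘ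
      rw [← integral_const_mul]
      congr 1
      ext z
      simp only [lift, Pi.smul_apply, smul_eq_mul]
      ring)
    (by
      intro Ψ hΨ
      have := hu _ (hΨ.lift (K + n))
      rw [dbar_iterate_lift K n hΨ] at this
      exact this)
  refine ⟨P, hPd, fun b => ?_⟩
  obtain ⟨χ, hχ1, hχ2, hχ3⟩ := exists_cutoff
  have hint : Integrable (fun z => u z - zpoly K P z) areaD :=
    huint.sub ((memLp_of_cont (continuous_zpoly K P) 1).integrable le_rfl)
  -- orthogonality to lifts
  have hzero : ∀ Θ, IsTest1 Θ → ∫ z, (u z - zpoly K P z) * lift K Θ z ∂areaD = 0 := by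
    intro Θ hΘ
    have h1 : ∫ z, u z * lift K Θ z ∂areaD = ∫ t : ℝ, P.eval (t : ℂ) * Θ t := hP Θ hΘ
    have h2 : ∫ z, zpoly K P z * lift K Θ z ∂areaD = ∫ t : ℝ, P.eval (t : ℂ) * Θ t := by
      rw [← integral_radial (hΘ.mul_left (contDiff_polyeval P))]
      congr 1
      ext z
      unfold zpoly lift
      by_cases hz : z = 0
      · subst hz
        have h0 : Θ 0 = 0 := hΘ.zero_of_notMem (by simp)
        simp [h0]
      · have hzK : z ^ K ≠ 0 := pow_ne_zero K hz
        field_simp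
    have h3 : ∀ z, (u z - zpoly K P z) * lift K Θ z =
        u z * lift K Θ z - zpoly K P z * lift K Θ z := fun z => by ring
    simp_rw [h3]
    rw [integral_sub (integrable_of_cont_mul (continuous_lift K hΘ) huint)
      (integrable_of_cont_mul (continuous_lift K hΘ)
        ((memLp_of_cont (continuous_zpoly K P) 1).integrable le_rfl)), h1, h2, sub_self]
  -- approximate
  have hΘj : ∀ j, IsTest1 (fun t : ℝ => (t : ℂ) ^ (K + b) * χ j t) := fun j =>
    (hχ1 j).mul_left (by
      have := contDiff_polyeval (Polynomial.X ^ (K + b))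
      simpa using this)
  have hlim : Tendsto (fun j => ∫ z, (u z - zpoly K P z) *
      lift K (fun t : ℝ => (t : ℂ) ^ (K + b) * χ j t) z ∂areaD) atTop
      (𝓝 (∫ z, (u z - zpoly K P z) * mono b (K + b) z ∂areaD)) := by
    have hform : ∀ j z, lift K (fun t : ℝ => (t : ℂ) ^ (K + b) * χ j t) z =
        mono b (K + b) z * χ j (‖z‖ ^ 2) := by
      intro j z
      unfold lift mono
      by_cases hz : z = 0
      · subst hz
        have h0 : χ j 0 = 0 := (hχ1 j).zero_of_notMem (by simp)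
        simp [h0]
      · have hzK : z ^ K ≠ 0 := pow_ne_zero K hz
        have h5 : ((‖z‖ ^ 2 : ℝ) : ℂ) = z * (starRingEnd ℂ) z := by
          rw [Complex.mul_conj, Complex.normSq_eq_norm_sq]
        change (z ^ K)⁻¹ * (((‖z‖ ^ 2 : ℝ) : ℂ) ^ (K + b) * χ j (‖z‖ ^ 2)) = _
        rw [h5, mul_pow, pow_add z K b]
        field_simp
    apply tendsto_integral_of_dominated_convergence (fun z => ‖u z - zpoly K P z‖)
    · intro j
      exact (integrable_of_cont_mul (continuous_lift K (hΘj j)) hint).aestronglyMeasurable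
    · exact hint.norm
    · intro j
      filter_upwards [ae_mem_ball] with z hz
      rw [hform, norm_mul, norm_mul]
      have h1 := norm_mono_le (a := b) (b := K + b) hz
      have h2 := hχ2 j (‖z‖ ^ 2)
      have h3 : ‖mono b (K + b) z‖ * ‖χ j (‖z‖ ^ 2)‖ ≤ 1 := by
        nlinarith [norm_nonneg (mono b (K + b) z), norm_nonneg (χ j (‖z‖ ^ 2))]
      nlinarith [norm_nonneg (u z - zpoly K P z)]
    · have hne : ∀ᵐ z ∂areaD, z ≠ 0 := by
        have := ae_eval_ne_X
        exact this
      filter_upwards [ae_mem_ball, hne] with z hz hz0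
      rw [mem_ball_zero_iff] at hz
      have ht : ‖z‖ ^ 2 ∈ Ioo (0 : ℝ) 1 := by
        have : 0 < ‖z‖ := norm_pos_iff.mpr hz0
        constructor
        · positivity
        · nlinarith
      simp_rw [hform]
      have := (hχ3 _ ht).const_mul (mono b (K + b) z)
      rw [mul_one] at this
      exact this.const_mul _
  have hz : ∀ j, ∫ z, (u z - zpoly K P z) *
      lift K (fun t : ℝ => (t : ℂ) ^ (K + b) * χ j t) z ∂areaD = 0 := fun j =>
    hzero _ (hΘj j)
  simp_rw [hz] at hlim
  exact (tendsto_nhds_unique tendsto_const_nhds hlim).symm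

end Pool.Agent.H44
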