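import Mathlib
import Pool.Agent.H44.PolySector
import Pool.Agent.H44.PolyMoment
import Pool.Agent.H44.HankelPoly

set_option autoImplicit false

namespace Pool.Agent.H44

open MeasureTheory Metric Complex Set Filter Topology
open scoped ENNReal ContDiff

/-! ### Monomials belong to the polyanalytic Bergman space -/

lemma setIntegral_eq_of_test {F : ℂ → ℂ} (h : ∀ z, z ∉ ball (0 : ℂ) 1 → F z = 0) :
    ∫ z, F z ∂areaD = (Real.pi)⁻¹ • ∫ z, F z := by
  rw [integral_areaD, setIntegral_eq_integral_of_forall_compl_eq_zero h]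

/-- Integration by parts for `∂̄`. -/
lemma integral_mul_dbar {ψ φ : ℂ → ℂ} (hψ : ContDiff ℝ ∞ ψ) (hφ : IsTest φ) :
    ∫ z, ψ z * dbar φ z ∂areaD = - ∫ z, dbar ψ z * φ z ∂areaD := by
  have hz1 : ∀ z, z ∉ ball (0 : ℂ) 1 → φ z = 0 := fun z hz =>
    image_eq_zero_of_notMem_tsupport (fun hm => hz (hφ.2.2 hm))
  have hz2 : ∀ z, z ∉ ball (0 : ℂ) 1 → dbar φ z = 0 := fun z hz =>
    image_eq_zero_of_notMem_tsupport (fun hm => hz (hφ.dbar.2.2 hm))
  rw [setIntegral_eq_of_test (fun z hz => by rw [hz2 z hz, mul_zero]),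
    setIntegral_eq_of_test (fun z hz => by rw [hz1 z hz, mul_zero]), ← smul_neg]
  congr 1
  have hfdφ : ContDiff ℝ ∞ (fderiv ℝ φ) := hφ.1.fderiv_right (by norm_num)
  have hfdψ : ContDiff ℝ ∞ (fderiv ℝ ψ) := hψ.fderiv_right (by norm_num)
  have key : ∀ v : ℂ, ∫ z, ψ z * fderiv ℝ φ z v = - ∫ z, fderiv ℝ ψ z v * φ z := by
    intro v
    apply integral_mul_fderiv_eq_neg_fderiv_mul_of_integrable
    · apply Continuous.integrable_of_hasCompactSupport
      · exact (hfdψ.clm_apply contDiff_const).continuous.mul hφ.1.continuous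
      · exact hφ.2.1.mul_left
    · apply Continuous.integrable_of_hasCompactSupport
      · exact hψ.continuous.mul (hfdφ.clm_apply contDiff_const).continuous
      · exact (hφ.2.1.fderiv_apply (𝕜 := ℝ) v).mul_left
    · apply Continuous.integrable_of_hasCompactSupport
      · exact hψ.continuous.mul hφ.1.continuous
      · exact hφ.2.1.mul_left
    · intro x _; exact hψ.differentiable (by simp) x
    · intro x _; exact hφ.1.differentiable (by simp) x
  have hi1 : ∀ v : ℂ, Integrable (fun z => ψ z * fderiv ℝ φ z v) := fun v => by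
    apply Continuous.integrable_of_hasCompactSupport
    · exact hψ.continuous.mul (hfdφ.clm_apply contDiff_const).continuous
    · exact (hφ.2.1.fderiv_apply (𝕜 := ℝ) v).mul_left
  have hi2 : ∀ v : ℂ, Integrable (fun z => fderiv ℝ ψ z v * φ z) := fun v => by
    apply Continuous.integrable_of_hasCompactSupport
    · exact (hfdψ.clm_apply contDiff_const).continuous.mul hφ.1.continuous
    · exact hφ.2.1.mul_left
  have e1 : ∀ z, ψ z * dbar φ z = (1 / 2) * (ψ z * fderiv ℝ φ z 1) +
      (I / 2) * (ψ z * fderiv ℝ φ z I) := fun z => by unfold dbar; ring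
  have e2 : ∀ z, dbar ψ z * φ z = (1 / 2) * (fderiv ℝ ψ z 1 * φ z) +
      (I / 2) * (fderiv ℝ ψ z I * φ z) := fun z => by unfold dbar; ring
  simp_rw [e1, e2]
  rw [integral_add ((hi1 1).const_mul _) ((hi1 I).const_mul _),
    integral_add ((hi2 1).const_mul _) ((hi2 I).const_mul _), integral_const_mul,
    integral_const_mul, integral_const_mul, integral_const_mul, key 1, key I]
  ring

lemma contDiff_mono (a b : ℕ) : ContDiff ℝ ∞ (mono a b) := by
  unfold mono
  exact (contDiff_id.pow a).mul ((Complex.conjCLE.contDiff).pow b)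

lemma dbar_mono (a b : ℕ) (z : ℂ) : dbar (mono a b) z = b * mono a (b - 1) z := by
  have h1 : HasFDerivAt (fun z : ℂ => z ^ a)
      ((ContinuousLinearMap.toSpanSingleton ℂ ((a : ℂ) * z ^ (a - 1))).restrictScalars ℝ) z :=
    (hasDerivAt_pow a z).hasFDerivAt.restrictScalars ℝ
  have h2 : HasFDerivAt (fun z : ℂ => (starRingEnd ℂ) z)
      (Complex.conjCLE : ℂ →L[ℝ] ℂ) z := Complex.conjCLE.hasFDerivAt
  have h3 := h2.pow b
  have h4 := h1.mul h3
  have h5 : HasFDerivAt (mono a b) _ z := h4
  unfold dbar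
  rw [h5.fderiv]
  simp only [_root_.add_apply, _root_.smul_apply, ContinuousLinearMap.coe_restrictScalars',
    ContinuousLinearMap.toSpanSingleton_apply, smul_eq_mul, ContinuousLinearEquiv.coe_coe,
    Complex.conjCLE_apply, map_one, Complex.conj_I]
  unfold mono
  simp only [nsmul_eq_mul]
  linear_combination (-(z ^ a * (b : ℂ) * (starRingEnd ℂ) z ^ (b - 1)) / 2 +
    ((starRingEnd ℂ) z ^ b * ((a : ℂ) * z ^ (a - 1))) / 2) * I_sq

lemma mono_integral (a b : ℕ) : ∀ n, b < n → ∀ φ, IsTest φ →
    ∫ z, mono a b z * (dbar^[n] φ) z ∂areaD = 0 := by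
  induction b with
  | zero =>
    intro n hn φ hφ
    obtain ⟨m, rfl⟩ : ∃ m, n = m + 1 := ⟨n - 1, by omega⟩
    rw [Function.iterate_succ_apply', integral_mul_dbar (contDiff_mono a 0) (hφ.dbar_iterate m)]
    simp_rw [dbar_mono]
    simp
  | succ b ih =>
    intro n hn φ hφ
    obtain ⟨m, rfl⟩ : ∃ m, n = m + 1 := ⟨n - 1, by omega⟩
    rw [Function.iterate_succ_apply', integral_mul_dbar (contDiff_mono a (b + 1))
      (hφ.dbar_iterate m)]
    have : ∀ z, dbar (mono a (b + 1)) z * (dbar^[m] φ) z =
        ((b + 1 : ℕ) : ℂ) * (mono a b z * (dbar^[m] φ) z) := by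
      intro z
      rw [dbar_mono]
      simp only [Nat.add_sub_cancel]
      ring
    simp_rw [this]
    rw [integral_const_mul, ih m (by omega) φ hφ, mul_zero, neg_zero]

/-- Continuous functions as elements of `L²`. -/
noncomputable def cLp {F : ℂ → ℂ} (hF : Continuous F) : Lp ℂ 2 areaD := (memLp_of_cont hF 2).toLp F

lemma coe_cLp {F : ℂ → ℂ} (hF : Continuous F) : cLp hF =ᵐ[areaD] F := MemLp.coeFn_toLp _

lemma conj_mono (a b : ℕ) (z : ℂ) : (starRingEnd ℂ) (mono a b z) = mono b a z := by
  unfold mono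
  rw [map_mul, map_pow, map_pow, Complex.conj_conj, mul_comm]

lemma mono_mul_mono (a b c d : ℕ) (z : ℂ) :
    mono a b z * mono c d z = mono (a + c) (b + d) z := by
  unfold mono; ring

lemma inner_cLp {F : ℂ → ℂ} (hF : Continuous F) (h : Lp ℂ 2 areaD) :
    inner ℂ (cLp hF) h = ∫ z, h z * (starRingEnd ℂ) (F z) ∂areaD := by
  rw [inner_eq_integral]
  apply integral_congr_ae
  filter_upwards [coe_cLp hF] with z hz
  rw [hz]

lemma inner_mono (a b : ℕ) (h : Lp ℂ 2 areaD) :
    inner ℂ (cLp (continuous_mono a b)) h = ∫ z, h z * mono b a z ∂areaD := by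
  rw [inner_cLp]
  simp_rw [conj_mono]

lemma integrable_Lp (h : Lp ℂ 2 areaD) : Integrable h areaD :=
  (Lp.memLp h).integrable (by norm_num)

lemma complete_Lp (q : Lp ℂ 2 areaD) (h : ∀ a b, inner ℂ (cLp (continuous_mono a b)) q = 0) :
    q = 0 := by
  rw [Lp.eq_zero_iff_ae_eq_zero]
  apply complete_mono (integrable_Lp q)
  intro a b
  rw [← inner_mono b a]
  exact h b a

lemma integral_mono_offdiag {a b : ℕ} (hab : a ≠ b) : ∫ z, mono a b z ∂areaD = 0 := by
  have := radial_orthogonal (q := fun _ => 1) (ρ := fun _ => 1) (Eventually.of_forall fun _ => rfl) hab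
  simpa using this

lemma zpoly_eq_sum {n : ℕ} (hn : 1 ≤ n) {P : Polynomial ℂ} (hP : P.degree < (n : WithBot ℕ)) (K : ℕ)
    (z : ℂ) : zpoly K P z = ∑ b ∈ Finset.range n, P.coeff b * mono (K + b) b z := by
  have hnat : P.natDegree < n := by
    by_cases h0 : P = 0
    · subst h0; rw [Polynomial.natDegree_zero]; omega
    · rw [Polynomial.degree_eq_natDegree h0] at hP
      exact_mod_cast hP
  unfold zpoly
  rw [Polynomial.eval_eq_sum_range' hnat, Finset.mul_sum]
  apply Finset.sum_congr rfl
  intro b _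
  have h5 : ((‖z‖ ^ 2 : ℝ) : ℂ) = z * (starRingEnd ℂ) z := by
    rw [Complex.mul_conj, Complex.normSq_eq_norm_sq]
  rw [h5]
  unfold mono
  ring

lemma zpoly_mem {n : ℕ} (hn : 1 ≤ n) {P : Polynomial ℂ} (hP : P.degree < (n : WithBot ℕ)) (K : ℕ) :
    cLp (continuous_zpoly K P) ∈ polyBergman n := by
  intro φ hφ
  have h1 : ∫ z, (cLp (continuous_zpoly K P)) z * (dbar^[n] φ) z ∂areaD =
      ∫ z, ∑ b ∈ Finset.range n, P.coeff b * (mono (K + b) b z * (dbar^[n] φ) z) ∂areaD := by
    apply integral_congr_ae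
    filter_upwards [coe_cLp (continuous_zpoly K P)] with z hz
    rw [hz, zpoly_eq_sum hn hP, Finset.sum_mul]
    apply Finset.sum_congr rfl
    intro b _
    ring
  rw [h1, integral_finsetSum]
  · apply Finset.sum_eq_zero
    intro b hb
    rw [integral_const_mul, mono_integral _ _ n (Finset.mem_range.mp hb) φ hφ, mul_zero]
  · intro b _
    apply Integrable.const_mul
    exact integrable_of_cont_mul (hφ.dbar_iterate n).1.continuous
      ((memLp_of_cont (continuous_mono _ _) 1).integrable le_rfl)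

/-- Orthogonality to the whole polyanalytic Bergman space can be tested in the sector. -/
theorem sector_orth {n : ℕ} (hn : 1 ≤ n) (K : ℕ) (q : Lp ℂ 2 areaD)
    (h1 : ∀ a b : ℕ, a ≠ K + b → ∫ z, q z * mono b a z ∂areaD = 0)
    (h2 : ∀ b < n, ∫ z, q z * mono b (K + b) z ∂areaD = 0)
    (u : Lp ℂ 2 areaD) (hu : u ∈ polyBergman n) : inner ℂ q u = 0 := by
  obtain ⟨P, hPd, hP⟩ := sector n K u hu
  set S : Submodule ℂ (Lp ℂ 2 areaD) := (Submodule.span ℂ
    (range fun b : ℕ => cLp (continuous_mono (K + b) b))).topologicalClosure with hS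
  have hSc : IsClosed (S : Set (Lp ℂ 2 areaD)) := Submodule.isClosed_topologicalClosure _
  have : CompleteSpace S := hSc.completeSpace_coe
  have hgen : ∀ b : ℕ, cLp (continuous_mono (K + b) b) ∈ S := fun b =>
    Submodule.le_topologicalClosure _ (Submodule.subset_span ⟨b, rfl⟩)
  -- `q ∈ S`
  have hq : q ∈ S := by
    have hsub := Submodule.sub_starProjection_mem_orthogonal (K := S) q
    have hmem := Submodule.starProjection_apply_mem S q
    have hz : q - S.starProjection q = 0 := by
      apply complete_Lp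
      intro a b
      by_cases hab : a = K + b
      · subst hab
        exact hsub _ (hgen b)
      · rw [inner_sub_right, inner_mono, h1 a b hab, zero_sub, neg_eq_zero]
        have hle : S ≤ (Submodule.span ℂ {cLp (continuous_mono a b)})ᗮ := by
          apply Submodule.topologicalClosure_minimal
          · rw [Submodule.span_le]
            rintro _ ⟨b', rfl⟩
            rw [SetLike.mem_coe, Submodule.mem_orthogonal_singleton_iff_inner_right, inner_mono]
            have h3 : ∫ z, (cLp (continuous_mono (K + b') b')) z * mono b a z ∂areaD =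
                ∫ z, mono (K + b' + b) (b' + a) z ∂areaD := by
              apply integral_congr_ae
              filter_upwards [coe_cLp (continuous_mono (K + b') b')] with z hz
              rw [hz, mono_mul_mono]
            rw [h3]
            exact integral_mono_offdiag (by omega)
          · exact Submodule.isClosed_orthogonal _
        exact (Submodule.mem_orthogonal_singleton_iff_inner_right).mp (hle hmem)
    rw [sub_eq_zero] at hz
    rw [hz]; exact hmem
  -- decompose u
  set v : Lp ℂ 2 areaD := u - cLp (continuous_zpoly K P) with hv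
  have hvS : inner ℂ v q = 0 := by
    have hle : S ≤ (Submodule.span ℂ {v})ᗮ := by
      apply Submodule.topologicalClosure_minimal
      · rw [Submodule.span_le]
        rintro _ ⟨b, rfl⟩
        rw [SetLike.mem_coe, Submodule.mem_orthogonal_singleton_iff_inner_right,
          ← inner_conj_symm, inner_mono]
        have h3 : ∫ z, v z * mono b (K + b) z ∂areaD = 0 := by
          rw [← hP b]
          apply integral_congr_ae
          filter_upwards [coe_cLp (continuous_zpoly K P), Lp.coeFn_sub u (cLp (continuous_zpoly K P))]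
            with z hz1 hz2
          rw [hv, hz2, Pi.sub_apply, hz1]
        rw [h3, map_zero]
      · exact Submodule.isClosed_orthogonal _
    exact (Submodule.mem_orthogonal_singleton_iff_inner_right).mp (hle hq)
  have hqz : inner ℂ (cLp (continuous_zpoly K P)) q = 0 := by
    rw [inner_cLp]
    have h3 : ∀ z, q z * (starRingEnd ℂ) (zpoly K P z) =
        ∑ b ∈ Finset.range n, (starRingEnd ℂ) (P.coeff b) * (q z * mono b (K + b) z) := by
      intro z
      rw [zpoly_eq_sum hn hPd, map_sum, Finset.mul_sum]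
      apply Finset.sum_congr rfl
      intro b _
      rw [map_mul, conj_mono]
      ring
    simp_rw [h3]
    rw [integral_finsetSum]
    · apply Finset.sum_eq_zero
      intro b hb
      rw [integral_const_mul, h2 b (Finset.mem_range.mp hb), mul_zero]
    · intro b _
      apply Integrable.const_mul
      exact integrable_of_cont_mul (continuous_mono _ _) (integrable_Lp q)
  have hu' : u = v + cLp (continuous_zpoly K P) := by rw [hv]; abel
  rw [hu', inner_add_right, ← inner_conj_symm, hvS, ← inner_conj_symm, hqz]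
  simp

/-! ### Blocks of radial symbols -/

/-- The `K`-th moment block `(∫ f |z|^{2(K+i+j)} dA)_{i,j<n}`. -/
noncomputable def blockMat (n : ℕ) (f : ℂ → ℂ) (K : ℕ) : Matrix (Fin n) (Fin n) ℂ :=
  Matrix.of fun i j => ∫ z, f z * mono (K + i + j) (K + i + j) z ∂areaD

lemma blockMat_conj (n : ℕ) (f : ℂ → ℂ) (K : ℕ) :
    (blockMat n (fun z => (starRingEnd ℂ) (f z)) K).det = (starRingEnd ℂ) (blockMat n f K).det := by
  rw [RingHom.map_det]
  congr 1
  ext i j
  simp only [blockMat, Matrix.of_apply, RingHom.mapMatrix_apply, Matrix.map_apply]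
  rw [← integral_conj]
  congr 1
  ext z
  rw [map_mul, conj_mono]

lemma memLp_top_mul_cont {f F : ℂ → ℂ} (hf : MemLp f ∞ areaD) (hF : Continuous F) :
    MemLp (fun z => f z * F z) 2 areaD :=
  MemLp.mul (p := ∞) (q := 2) (memLp_of_cont hF 2) hf

/-- If the block at `K` is invertible then `z^K` is hit: there is `h' ∈ A²_n` with
`P_n (f̄ h') = z^K`, expressed weakly. -/
theorem block_preimage {n : ℕ} (hn : 1 ≤ n) (f : Lp ℂ ∞ areaD) {ρ : ℝ → ℂ}
    (hρ : ∀ᵐ z ∂areaD, f z = ρ ‖z‖) (K : ℕ) (hdet : (blockMat n f K).det ≠ 0) :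
    ∃ h' : Lp ℂ 2 areaD, h' ∈ polyBergman n ∧ ∀ u : Lp ℂ 2 areaD, u ∈ polyBergman n →
      ∫ z, f z * u z * (starRingEnd ℂ) (h' z) ∂areaD = ∫ z, u z * mono 0 K z ∂areaD := by
  set fc : ℂ → ℂ := fun z => (starRingEnd ℂ) (f z) with hfc
  have hfmem : MemLp f ∞ areaD := Lp.memLp f
  have hfcmem : MemLp fc ∞ areaD := hfmem.star
  have hfcint : Integrable fc areaD := hfcmem.integrable le_top
  have hρc : ∀ᵐ z ∂areaD, fc z = (starRingEnd ℂ) (ρ ‖z‖) := by
    filter_upwards [hρ] with z hz
    rw [hfc]; simp only [hz]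
  have hdetc : (blockMat n fc K).det ≠ 0 := by
    rw [hfc, blockMat_conj]
    exact (map_ne_zero _).mpr hdet
  set c : Fin n → ℂ := fun i => ∫ z, mono (K + i) (K + i) z ∂areaD with hc
  set x : Fin n → ℂ := (blockMat n fc K)⁻¹.mulVec c with hx
  have hMx : (blockMat n fc K).mulVec x = c := by
    rw [hx, Matrix.mulVec_mulVec, Matrix.mul_nonsing_inv _ (isUnit_iff_ne_zero.mpr hdetc),
      Matrix.one_mulVec]
  set P : Polynomial ℂ := ∑ j : Fin n, Polynomial.C (x j) * Polynomial.X ^ (j : ℕ) with hP
  have hPd : P.degree < (n : WithBot ℕ) := by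
    rw [hP]
    refine lt_of_le_of_lt (Polynomial.degree_sum_le _ _) ?_
    rw [Finset.sup_lt_iff (WithBot.bot_lt_coe _)]
    intro j _
    refine lt_of_le_of_lt (Polynomial.degree_C_mul_X_pow_le _ _) ?_
    exact_mod_cast j.2
  have hzp : ∀ z, zpoly K P z = ∑ j : Fin n, x j * mono (K + j) j z := by
    intro z
    unfold zpoly
    rw [hP, Polynomial.eval_finsetSum, Finset.mul_sum]
    apply Finset.sum_congr rfl
    intro j _
    have h5 : ((‖z‖ ^ 2 : ℝ) : ℂ) = z * (starRingEnd ℂ) z := by
      rw [Complex.mul_conj, Complex.normSq_eq_norm_sq]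
    rw [h5]
    simp only [Polynomial.eval_mul, Polynomial.eval_C, Polynomial.eval_pow, Polynomial.eval_X]
    unfold mono
    ring
  -- the function q
  have hqmem : MemLp (fun z => fc z * zpoly K P z - mono K 0 z) 2 areaD :=
    (memLp_top_mul_cont hfcmem (continuous_zpoly K P)).sub (memLp_of_cont (continuous_mono K 0) 2)
  set q : Lp ℂ 2 areaD := hqmem.toLp _ with hq
  have hqc : q =ᵐ[areaD] fun z => fc z * zpoly K P z - mono K 0 z := hqmem.coeFn_toLp
  have hexp : ∀ a b : ℕ, ∫ z, q z * mono b a z ∂areaD =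
      (∑ j : Fin n, x j * ∫ z, fc z * mono (K + j + b) (j + a) z ∂areaD) -
        ∫ z, mono (K + b) a z ∂areaD := by
    intro a b
    have h1 : ∫ z, q z * mono b a z ∂areaD =
        ∫ z, ((∑ j : Fin n, x j * (fc z * mono (K + j + b) (j + a) z)) - mono (K + b) a z)
          ∂areaD := by
      apply integral_congr_ae
      filter_upwards [hqc] with z hz
      rw [hz, hzp, sub_mul, mono_mul_mono, zero_add, Finset.mul_sum, Finset.sum_mul]
      congr 1
      apply Finset.sum_congr rfl
      intro j _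
      rw [← mono_mul_mono]
      ring
    have hi : ∀ j : Fin n, Integrable (fun z => x j * (fc z * mono (K + j + b) (j + a) z)) areaD :=
      fun j => (integrable_of_cont_mul (continuous_mono _ _) hfcint).const_mul _
    rw [h1, integral_sub (integrable_finsetSum _ fun j _ => hi j)
      ((memLp_of_cont (continuous_mono _ _) 1).integrable le_rfl),
      integral_finsetSum _ fun j _ => hi j]
    congr 1
    apply Finset.sum_congr rfl
    intro j _
    rw [integral_const_mul]
  have h1 : ∀ a b : ℕ, a ≠ K + b → ∫ z, q z * mono b a z ∂areaD = 0 := by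
    intro a b hab
    rw [hexp, integral_mono_offdiag (Ne.symm hab), sub_zero]
    apply Finset.sum_eq_zero
    intro j _
    rw [radial_orthogonal (q := fc) (ρ := fun r => (starRingEnd ℂ) (ρ r)) hρc (by omega), mul_zero]
  have h2 : ∀ b < n, ∫ z, q z * mono b (K + b) z ∂areaD = 0 := by
    intro b hb
    rw [hexp]
    have h3 := congrFun hMx ⟨b, hb⟩
    simp only [Matrix.mulVec, dotProduct, blockMat, Matrix.of_apply, hc] at h3
    rw [← h3, sub_eq_zero]
    apply Finset.sum_congr rfl
    intro j _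
    rw [mul_comm]
    congr 2
    ext z
    have e1 : K + (j : ℕ) + b = K + b + j := by omega
    have e2 : (j : ℕ) + (K + b) = K + b + j := by omega
    rw [e1, e2]
  refine ⟨cLp (continuous_zpoly K P), zpoly_mem hn hPd K, fun u hu => ?_⟩
  have h3 := sector_orth hn K q h1 h2 u hu
  rw [inner_eq_integral] at h3
  have h4 : ∫ z, u z * (starRingEnd ℂ) (q z) ∂areaD =
      (∫ z, f z * u z * (starRingEnd ℂ) ((cLp (continuous_zpoly K P)) z) ∂areaD) -
        ∫ z, u z * mono 0 K z ∂areaD := by
    have hi1 : Integrable (fun z => f z * u z * (starRingEnd ℂ) ((cLp (continuous_zpoly K P)) z))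
        areaD := by
      have ha : MemLp (fun z => f z * (u z)) 2 areaD :=
        MemLp.mul (p := ∞) (q := 2) (Lp.memLp u) hfmem
      exact ha.integrable_mul (Lp.memLp _).star
    rw [← integral_sub hi1 (integrable_of_cont_mul (continuous_mono _ _) (integrable_Lp u))]
    apply integral_congr_ae
    filter_upwards [hqc, coe_cLp (continuous_zpoly K P)] with z hz1 hz2
    rw [hz1, hz2, map_sub, map_mul, conj_mono, hfc, Complex.conj_conj]
    ring
  rw [h4, sub_eq_zero] at h3
  exact h3

/-- The moment functionals of `f`. -/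
noncomputable def momL (f : Lp ℂ ∞ areaD) (K : ℕ) : Polynomial ℂ →ₗ[ℂ] ℂ where
  toFun P := ∫ z, f z * (mono K K z * P.eval ((‖z‖ ^ 2 : ℝ) : ℂ)) ∂areaD
  map_add' P Q := by
    have hi : ∀ P : Polynomial ℂ, Integrable
        (fun z => f z * (mono K K z * P.eval ((‖z‖ ^ 2 : ℝ) : ℂ))) areaD := fun P =>
      integrable_of_cont_mul ((continuous_mono K K).mul (P.continuous.comp
        (Complex.continuous_ofReal.comp (continuous_norm.pow 2)))) ((Lp.memLp f).integrable le_top)
    rw [← integral_add (hi P) (hi Q)]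
    congr 1; ext z; rw [Polynomial.eval_add]; ring
  map_smul' c P := by
    rw [RingHom.id_apply, smul_eq_mul, ← integral_const_mul]
    congr 1; ext z; rw [Polynomial.eval_smul, smul_eq_mul]; ring

lemma momL_apply (f : Lp ℂ ∞ areaD) (K : ℕ) (P : Polynomial ℂ) :
    momL f K P = ∫ z, f z * (mono K K z * P.eval ((‖z‖ ^ 2 : ℝ) : ℂ)) ∂areaD := rfl

lemma normSq_eq (z : ℂ) : ((‖z‖ ^ 2 : ℝ) : ℂ) = z * (starRingEnd ℂ) z := by
  rw [Complex.mul_conj, Complex.normSq_eq_norm_sq]

lemma momL_succ (f : Lp ℂ ∞ areaD) (K : ℕ) (P : Polynomial ℂ) :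
    momL f (K + 1) P = momL f K (Polynomial.X * P) := by
  rw [momL_apply, momL_apply]
  congr 1; ext z
  rw [Polynomial.eval_mul, Polynomial.eval_X, normSq_eq]
  unfold mono
  ring

lemma momL_X_pow (f : Lp ℂ ∞ areaD) (K m : ℕ) :
    momL f K (Polynomial.X ^ m) = ∫ z, f z * mono (K + m) (K + m) z ∂areaD := by
  rw [momL_apply]
  congr 1; ext z
  rw [Polynomial.eval_pow, Polynomial.eval_X, normSq_eq]
  unfold mono
  ring

/-- A singular block gives a polynomial in the kernel. -/
lemma singBlock_of_det {n : ℕ} (f : Lp ℂ ∞ areaD) (K : ℕ) (hdet : (blockMat n f K).det = 0) :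
    SingBlock (momL f) n K := by
  rw [← Matrix.exists_mulVec_eq_zero_iff] at hdet
  obtain ⟨v, hv0, hv⟩ := hdet
  set P : Polynomial ℂ := ∑ j : Fin n, Polynomial.C (v j) * Polynomial.X ^ (j : ℕ) with hP
  have hcoeff : ∀ j : Fin n, P.coeff j = v j := by
    intro j
    rw [hP, Polynomial.finsetSum_coeff]
    simp only [Polynomial.coeff_C_mul_X_pow]
    rw [Finset.sum_eq_single j]
    · simp
    · intro b _ hb
      rw [if_neg]
      intro h; apply hb; ext; exact h.symm
    · intro h; exact absurd (Finset.mem_univ _) h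
  refine ⟨P, ?_, ?_, ?_⟩
  · intro h0
    apply hv0
    ext j
    rw [← hcoeff j, h0]; simp
  · rw [hP]
    refine lt_of_le_of_lt (Polynomial.degree_sum_le _ _) ?_
    rw [Finset.sup_lt_iff (WithBot.bot_lt_coe _)]
    intro j _
    refine lt_of_le_of_lt (Polynomial.degree_C_mul_X_pow_le _ _) ?_
    exact_mod_cast j.2
  · intro Q hQ
    have hb : ∀ b < n, momL f K (P * Polynomial.X ^ b) = 0 := by
      intro b hb
      have h3 := congrFun hv ⟨b, hb⟩
      simp only [Matrix.mulVec, dotProduct, blockMat, Matrix.of_apply, Pi.zero_apply] at h3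
      rw [← h3, hP, Finset.sum_mul, map_sum]
      apply Finset.sum_congr rfl
      intro j _
      have : Polynomial.C (v j) * Polynomial.X ^ (j : ℕ) * Polynomial.X ^ b =
          (v j) • (Polynomial.X ^ (b + j) : Polynomial ℂ) := by
        rw [Polynomial.smul_eq_C_mul, pow_add]; ring
      rw [this, map_smul, momL_X_pow, smul_eq_mul, mul_comm, ← add_assoc]
    have hQs : Q = ∑ b ∈ Finset.range n, Polynomial.C (Q.coeff b) * Polynomial.X ^ b := by
      ext m
      rw [Polynomial.finsetSum_coeff]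
      simp only [Polynomial.coeff_C_mul_X_pow]
      rw [Finset.sum_ite_eq]
      split_ifs with hm
      · rfl
      · rw [Finset.mem_range, not_lt] at hm
        apply Polynomial.coeff_eq_zero_of_degree_lt
        exact lt_of_lt_of_le hQ (by exact_mod_cast hm)
    rw [hQs, Finset.mul_sum, map_sum]
    apply Finset.sum_eq_zero
    intro b hb'
    have : P * (Polynomial.C (Q.coeff b) * Polynomial.X ^ b) =
        (Q.coeff b) • (P * Polynomial.X ^ b) := by
      rw [Polynomial.smul_eq_C_mul]; ring
    rw [this, map_smul, hb b (Finset.mem_range.mp hb'), smul_zero]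

/-- For a nonzero radial symbol the singular blocks are rare. -/
theorem summable_sing {n : ℕ} (f : Lp ℂ ∞ areaD) {ρ : ℝ → ℂ}
    (hρ : ∀ᵐ z ∂areaD, f z = ρ ‖z‖) (hf : f ≠ 0) :
    Summable ({m : ℕ | (blockMat n f (m + 1)).det = 0}.indicator
      (fun m : ℕ => 1 / ((m : ℝ) + 1))) := by
  by_contra hdiv
  apply hf
  have hfint : Integrable f areaD := (Lp.memLp f).integrable le_top
  have hform : ∀ m : ℕ, (Matrix.of fun i j : Fin n => ∫ z, (f z * mono (i + j) (i + j) z) *
      mono (m + 1) (m + 1) z ∂areaD) = blockMat n f (m + 1) := by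
    intro m
    ext i j
    simp only [Matrix.of_apply, blockMat]
    congr 1; ext z
    rw [mul_assoc, mono_mul_mono]
    have : (i : ℕ) + j + (m + 1) = m + 1 + i + j := by omega
    rw [this]
  have hall := det_moment_unique (N := n) (fun i j z => f z * mono (i + j) (i + j) z)
    (fun i j => integrable_of_cont_mul (continuous_mono _ _) hfint)
    {m : ℕ | (blockMat n f (m + 1)).det = 0}
    (fun m hm => (congrArg Matrix.det (hform m)).trans hm) hdiv
  have hsing : ∀ K, 1 ≤ K → SingBlock (momL f) n K := by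
    intro K hK
    obtain ⟨m, rfl⟩ : ∃ m, K = m + 1 := ⟨K - 1, by omega⟩
    apply singBlock_of_det
    exact (congrArg Matrix.det (hform m)).symm.trans (hall m)
  obtain ⟨P, hP0, K1, hK1⟩ := exists_recurrence (L := momL f) (momL_succ f) n ⟨1, hsing⟩
  -- the function f * |z|^{2 K1} * P(|z|^2) has all moments zero
  have hcont : Continuous (fun z : ℂ => mono K1 K1 z * P.eval ((‖z‖ ^ 2 : ℝ) : ℂ)) :=
    (continuous_mono K1 K1).mul (P.continuous.comp
      (Complex.continuous_ofReal.comp (continuous_norm.pow 2)))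
  have hq : (fun z => f z * (mono K1 K1 z * P.eval ((‖z‖ ^ 2 : ℝ) : ℂ))) =ᵐ[areaD] 0 := by
    apply complete_mono (integrable_of_cont_mul hcont hfint)
    intro a b
    by_cases hab : a = b
    · subst hab
      have h1 := hK1 (K1 + a) (by omega)
      rw [momL_apply] at h1
      rw [← h1]
      congr 1; ext z
      rw [← mono_mul_mono]
      ring
    · apply radial_orthogonal (ρ := fun r => ρ r * (((r ^ 2 : ℝ) : ℂ) ^ K1 *
        P.eval ((r ^ 2 : ℝ) : ℂ))) _ hab
      filter_upwards [hρ] with z hz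
      rw [hz]
      have h5 : mono K1 K1 z = ((‖z‖ ^ 2 : ℝ) : ℂ) ^ K1 := by
        rw [normSq_eq]; unfold mono; ring
      rw [h5]
  rw [Lp.eq_zero_iff_ae_eq_zero]
  filter_upwards [hq, ae_eval_normSq_ne hP0, ae_eval_ne_X] with z h1 h2 h3
  have h4 : mono K1 K1 z ≠ 0 := by
    unfold mono
    exact mul_ne_zero (pow_ne_zero _ h3) (pow_ne_zero _ ((map_ne_zero _).mpr h3))
  have h5 : f z * (mono K1 K1 z * P.eval ((‖z‖ ^ 2 : ℝ) : ℂ)) = 0 := h1
  exact (mul_eq_zero.mp h5).resolve_right (mul_ne_zero h4 h2)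

end Pool.Agent.H44
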