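import Mathlib
import Pool.Agent.H44.PolyMoment

set_option autoImplicit false

namespace Pool.Agent.H44

open MeasureTheory Metric Complex Set Filter Topology
open scoped ENNReal ContDiff

/-- The space `X = (closed disc)^M`. -/
abbrev Poly (M : ℕ) := Fin M → closedBall (0 : ℂ) 1

/-- Two tuples are equivalent if they are permutations of each other (expressed through the
polynomial with the given roots). -/
def permSetoid (M : ℕ) : Setoid (Poly M) where
  r x y := ∀ t : ℂ, ∏ i, (t - (x i : ℂ)) = ∏ i, (t - (y i : ℂ))
  iseqv := ⟨fun _ _ => rfl, fun h t => (h t).symm, fun h1 h2 t => (h1 t).trans (h2 t)⟩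

lemma perm_prod {M : ℕ} {x y : Poly M} (h : ∀ t : ℂ, ∏ i, (t - (x i : ℂ)) = ∏ i, (t - (y i : ℂ)))
    (F : closedBall (0 : ℂ) 1 → ℂ) : ∏ i, F (x i) = ∏ i, F (y i) := by
  classical
  have h1 : ((Finset.univ.val.map (fun i => (x i : ℂ))).map
      (fun a => Polynomial.X - Polynomial.C a)).prod =
      ((Finset.univ.val.map (fun i => (y i : ℂ))).map
      (fun a => Polynomial.X - Polynomial.C a)).prod := by
    apply Polynomial.funext
    intro t
    rw [Multiset.map_map, Multiset.map_map]
    have e1 : ∀ w : Poly M, (Multiset.map ((fun a : ℂ => Polynomial.X - Polynomial.C a) ∘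
        fun i => (w i : ℂ)) Finset.univ.val).prod =
        ∏ i, (Polynomial.X - Polynomial.C (w i : ℂ)) := fun w => rfl
    rw [e1, e1, Polynomial.eval_prod, Polynomial.eval_prod]
    simpa using h t
  have h2 : (Finset.univ.val.map (fun i => (x i : ℂ))) = (Finset.univ.val.map (fun i => (y i : ℂ))) := by
    rw [← Polynomial.roots_multiset_prod_X_sub_C (Finset.univ.val.map (fun i => (x i : ℂ))), h1,
      Polynomial.roots_multiset_prod_X_sub_C]
  have h3 : Finset.univ.val.map x = Finset.univ.val.map y := by
    apply Multiset.map_injective Subtype.val_injective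
    rw [Multiset.map_map, Multiset.map_map]
    exact h2
  have h4 : (Multiset.map F (Finset.univ.val.map x)).prod =
      (Multiset.map F (Finset.univ.val.map y)).prod := by rw [h3]
  rw [Multiset.map_map, Multiset.map_map] at h4
  exact h4

/-- The quotient of `X` by permutations. -/
def SymPoly (M : ℕ) := Quotient (permSetoid M)

instance (M : ℕ) : TopologicalSpace (SymPoly M) :=
  inferInstanceAs (TopologicalSpace (Quotient (permSetoid M)))

instance (M : ℕ) : CompactSpace (SymPoly M) :=
  inferInstanceAs (CompactSpace (Quotient (permSetoid M)))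

/-- The function `[x] ↦ ∏ h (x_i)` on the quotient. -/
noncomputable def prodFun {M : ℕ} (h : C(closedBall (0 : ℂ) 1, ℂ)) : C(SymPoly M, ℂ) where
  toFun := Quotient.lift (fun x : Poly M => ∏ i, h (x i)) (fun _ _ hxy => perm_prod hxy h)
  continuous_toFun := by
    apply Continuous.quotient_lift
    exact continuous_finsetProd _ (fun i _ => h.continuous.comp (continuous_apply i))

lemma prodFun_mk {M : ℕ} (h : C(closedBall (0 : ℂ) 1, ℂ)) (x : Poly M) :
    (prodFun h : C(SymPoly M, ℂ)) (Quotient.mk (permSetoid M) x) = ∏ i, h (x i) := rfl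

/-- Polynomials in `z` and `z̄` of the form `Q(z) * conj (R(z))` on the closed disc. -/
noncomputable def qr (Q R : Polynomial ℂ) : C(closedBall (0 : ℂ) 1, ℂ) where
  toFun z := Q.eval (z : ℂ) * (starRingEnd ℂ) (R.eval (z : ℂ))
  continuous_toFun := by
    apply Continuous.mul
    · exact Q.continuous.comp continuous_subtype_val
    · exact Complex.continuous_conj.comp (R.continuous.comp continuous_subtype_val)

/-- The tuple map `ℂ^M → SymPoly M`. -/
noncomputable def toSym (M : ℕ) (z : Fin M → ℂ) : SymPoly M :=
  Quotient.mk (permSetoid M) (fun i => retr (z i))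

lemma continuous_toSym (M : ℕ) : Continuous (toSym M) := by
  unfold toSym
  exact continuous_quotient_mk'.comp (continuous_pi fun i =>
    retr.continuous.comp (continuous_apply i))

/-- The density `W(z) = ∏ w(z_i) z̄_i^i * det (z_i^j)`. -/
noncomputable def dens {M : ℕ} (w : ℂ → ℂ) (z : Fin M → ℂ) : ℂ :=
  ∑ σ : Equiv.Perm (Fin M), ((Equiv.Perm.sign σ : ℤ) : ℂ) *
    ∏ i, (w (z i) * mono (σ i) i (z i))

lemma integrable_dens {M : ℕ} {w : ℂ → ℂ} (hw : Integrable w areaD) :
    Integrable (dens (M := M) w) (Measure.pi fun _ => areaD) := by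
  unfold dens
  apply integrable_finsetSum
  intro σ _
  apply Integrable.const_mul
  exact Integrable.fintype_prod (f := fun i z => w z * mono (σ i) i z)
    (fun i => integrable_of_cont_mul (continuous_mono _ _) hw)

/-- The functional `F ↦ ∫ F([z]) W(z)`. -/
noncomputable def symFun (M : ℕ) {w : ℂ → ℂ} (hw : Integrable w areaD) :
    C(SymPoly M, ℂ) →L[ℂ] ℂ :=
  LinearMap.mkContinuous
    { toFun := fun F => ∫ z, dens w z * F (toSym M z) ∂(Measure.pi fun _ => areaD)
      map_add' := fun F G => by
        have hb : ∀ F : C(SymPoly M, ℂ), Integrable (fun z => dens w z * F (toSym M z))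
            (Measure.pi fun _ => areaD) := by
          intro F
          have := (integrable_dens (M := M) hw).bdd_mul (c := ‖F‖)
            (F.continuous.comp (continuous_toSym M)).aestronglyMeasurable
            (Eventually.of_forall fun z => F.norm_coe_le_norm _)
          simpa [mul_comm] using this
        rw [← integral_add (hb F) (hb G)]
        congr 1; ext z; simp [mul_add]
      map_smul' := fun c F => by
        simp only [ContinuousMap.coe_smul, Pi.smul_apply, smul_eq_mul, RingHom.id_apply]
        rw [← integral_const_mul]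
        congr 1; ext z; ring }
    (∫ z, ‖dens w z‖ ∂(Measure.pi fun _ : Fin M => areaD)) (fun F => by
      refine (norm_integral_le_integral_norm _).trans ?_
      rw [← integral_mul_const]
      have hb : Integrable (fun z => dens w z * F (toSym M z))
          (Measure.pi fun _ => areaD) := by
        have := (integrable_dens (M := M) hw).bdd_mul (c := ‖F‖)
          (F.continuous.comp (continuous_toSym M)).aestronglyMeasurable
          (Eventually.of_forall fun z => F.norm_coe_le_norm _)
        simpa [mul_comm] using this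
      apply integral_mono
      · exact hb.norm
      · exact (integrable_dens hw).norm.mul_const _
      · intro z
        simp only [norm_mul]
        exact mul_le_mul_of_nonneg_left (F.norm_coe_le_norm _) (norm_nonneg _))

lemma symFun_apply (M : ℕ) {w : ℂ → ℂ} (hw : Integrable w areaD) (F : C(SymPoly M, ℂ)) :
    symFun M hw F = ∫ z, dens w z * F (toSym M z) ∂(Measure.pi fun _ => areaD) := rfl

/-- The Gram-type identity. -/
lemma symFun_prodFun (M : ℕ) {w : ℂ → ℂ} (hw : Integrable w areaD)
    (h : C(closedBall (0 : ℂ) 1, ℂ)) :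
    symFun M hw (prodFun h) =
      (Matrix.of fun i j : Fin M => ∫ z, w z * h (retr z) * mono i j z ∂areaD).det := by
  rw [symFun_apply, Matrix.det_apply]
  have h1 : ∀ z : Fin M → ℂ, dens w z * (prodFun h : C(SymPoly M, ℂ)) (toSym M z) =
      ∑ σ : Equiv.Perm (Fin M), ((Equiv.Perm.sign σ : ℤ) : ℂ) *
        ∏ i, (w (z i) * h (retr (z i)) * mono (σ i) i (z i)) := by
    intro z
    have : (prodFun h : C(SymPoly M, ℂ)) (toSym M z) = ∏ i, h (retr (z i)) := rfl
    rw [this]
    unfold dens
    rw [Finset.sum_mul]
    apply Finset.sum_congr rfl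
    intro σ _
    rw [mul_assoc, ← Finset.prod_mul_distrib]
    congr 1
    apply Finset.prod_congr rfl
    intro i _
    ring
  simp_rw [h1]
  have hwh : Integrable (fun z => w z * h (retr z)) areaD :=
    integrable_of_cont_mul (h.continuous.comp retr.continuous) hw
  rw [integral_finsetSum]
  · apply Finset.sum_congr rfl
    intro σ _
    rw [integral_const_mul, integral_fintype_prod_eq_prod
      (f := fun i z => w z * h (retr z) * mono (σ i) i z)]
    rw [Units.smul_def, zsmul_eq_mul]
    rfl
  · intro σ _
    apply Integrable.const_mul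
    exact Integrable.fintype_prod (f := fun i z => w z * h (retr z) * mono (σ i) i z)
      (fun i => integrable_of_cont_mul (continuous_mono _ _) hwh)

/-- From vanishing for `h = Q conj R` to vanishing for all continuous `h`. -/
lemma det_zero_all {M : ℕ} {w : ℂ → ℂ} (hw : Integrable w areaD)
    (hdet : ∀ Q R : Polynomial ℂ, (Matrix.of fun i j : Fin M =>
      ∫ z, w z * (Q.eval z * (starRingEnd ℂ) (R.eval z)) * mono i j z ∂areaD).det = 0)
    (h : C(closedBall (0 : ℂ) 1, ℂ)) :
    (Matrix.of fun i j : Fin M => ∫ z, w z * h (retr z) * mono i j z ∂areaD).det = 0 := by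
  have key : symFun M hw = 0 := by
    refine sw_functional {F | ∃ Q R : Polynomial ℂ, F = prodFun (qr Q R)} ?_ ?_ ?_ ?_ _ ?_
    · refine ⟨1, 1, ?_⟩
      ext x
      induction x using Quotient.inductionOn with
      | h x => rw [prodFun_mk]; simp [qr]
    · rintro F ⟨Q, R, rfl⟩ G ⟨Q', R', rfl⟩
      refine ⟨Q * Q', R * R', ?_⟩
      ext x
      induction x using Quotient.inductionOn with
      | h x =>
        rw [ContinuousMap.mul_apply, prodFun_mk, prodFun_mk, prodFun_mk, ← Finset.prod_mul_distrib]
        apply Finset.prod_congr rfl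
        intro i _
        simp [qr]; ring
    · rintro F ⟨Q, R, rfl⟩
      refine ⟨R, Q, ?_⟩
      ext x
      induction x using Quotient.inductionOn with
      | h x =>
        rw [ContinuousMap.star_apply, prodFun_mk, prodFun_mk, star_prod]
        apply Finset.prod_congr rfl
        intro i _
        simp [qr, mul_comm]
    · intro x y hxy
      induction x using Quotient.inductionOn with
      | h x =>
        induction y using Quotient.inductionOn with
        | h y =>
          by_contra hcon
          push Not at hcon
          apply hxy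
          apply Quotient.sound
          intro t
          have := hcon (prodFun (qr (Polynomial.C t - Polynomial.X) 1)) ⟨_, _, rfl⟩
          rw [prodFun_mk, prodFun_mk] at this
          simpa [qr] using this
    · rintro F ⟨Q, R, rfl⟩
      rw [symFun_prodFun]
      refine Eq.trans ?_ (hdet Q R)
      congr 1
      ext i j
      simp only [Matrix.of_apply]
      apply integral_congr_ae
      filter_upwards [ae_mem_ball] with z hz
      simp only [qr, ContinuousMap.coe_mk]
      rw [retr_coe hz]
  rw [← symFun_prodFun M hw h, key]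
  rfl

/-- Luecking's finite rank theorem (bounded symbols), in determinant form. -/
theorem luecking {M : ℕ} {w : ℂ → ℂ} (hw : MemLp w ∞ areaD)
    (hdet : ∀ Q R : Polynomial ℂ, (Matrix.of fun i j : Fin M =>
      ∫ z, w z * (Q.eval z * (starRingEnd ℂ) (R.eval z)) * mono i j z ∂areaD).det = 0) :
    w =ᵐ[areaD] 0 := by
  have hw1 : Integrable w areaD := hw.integrable le_top
  have hw2 : MemLp w 2 areaD := hw.mono_exponent le_top
  -- the conjugate kernels
  have hk : ∀ i j : ℕ, MemLp (fun z => (starRingEnd ℂ) (w z * mono i j z)) 2 areaD := by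
    intro i j
    have h1 : MemLp (fun z => w z * mono i j z) 2 areaD :=
      MemLp.mul (p := ∞) (q := 2) (memLp_of_cont (continuous_mono i j) 2) hw
    exact h1.star
  have hentry : ∀ (i j : ℕ) (h : Lp ℂ 2 areaD),
      inner ℂ ((hk i j).toLp _) h = ∫ z, w z * h z * mono i j z ∂areaD := by
    intro i j h
    rw [inner_eq_integral]
    apply integral_congr_ae
    filter_upwards [(hk i j).coeFn_toLp] with z hz
    rw [hz, Complex.conj_conj]
    ring
  have hcont : Continuous (fun h : Lp ℂ 2 areaD =>
      (Matrix.of fun i j : Fin M => ∫ z, w z * h z * mono i j z ∂areaD).det) := by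
    apply Continuous.matrix_det
    apply continuous_matrix
    intro i j
    simp only [Matrix.of_apply]
    simp_rw [← hentry]
    fun_prop
  have hdense := BoundedContinuousFunction.toLp_denseRange (p := 2) (μ := areaD) (𝕜 := ℂ)
    (E := ℂ) (α := ℂ) (by norm_num)
  have hzero : ∀ h : Lp ℂ 2 areaD,
      (Matrix.of fun i j : Fin M => ∫ z, w z * h z * mono i j z ∂areaD).det = 0 := by
    intro h
    have hcl : IsClosed {h : Lp ℂ 2 areaD |
        (Matrix.of fun i j : Fin M => ∫ z, w z * h z * mono i j z ∂areaD).det = 0} :=
      isClosed_eq hcont continuous_const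
    have hsub : range (BoundedContinuousFunction.toLp (E := ℂ) 2 areaD ℂ) ⊆
        {h : Lp ℂ 2 areaD |
        (Matrix.of fun i j : Fin M => ∫ z, w z * h z * mono i j z ∂areaD).det = 0} := by
      rintro _ ⟨F, rfl⟩
      have := det_zero_all hw1 hdet ⟨fun z => F z, F.continuous.comp continuous_subtype_val⟩
      refine Eq.trans ?_ this
      congr 1
      ext i j
      simp only [Matrix.of_apply]
      apply integral_congr_ae
      filter_upwards [ae_mem_ball, BoundedContinuousFunction.coeFn_toLp (p := 2) (μ := areaD) ℂ F]
        with z hz hz2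
      rw [hz2]
      simp only [ContinuousMap.coe_mk]
      rw [retr_coe hz]
    exact (closure_minimal hsub hcl) (hdense h)
  -- apply to the conjugate of w
  have hz := hzero ((hw2.star).toLp _)
  rw [← Matrix.exists_mulVec_eq_zero_iff] at hz
  obtain ⟨c, hc0, hc⟩ := hz
  set p : Polynomial ℂ := ∑ j : Fin M, Polynomial.C ((starRingEnd ℂ) (c j)) * Polynomial.X ^ (j : ℕ)
    with hp
  have hp0 : p ≠ 0 := by
    intro h0
    apply hc0
    ext j
    have : p.coeff j = (starRingEnd ℂ) (c j) := by
      rw [hp, Polynomial.finsetSum_coeff]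
      simp only [Polynomial.coeff_C_mul_X_pow]
      rw [Finset.sum_eq_single j]
      · simp
      · intro b _ hb
        rw [if_neg]
        intro h; apply hb; ext; exact h.symm
      · intro h; exact absurd (Finset.mem_univ _) h
    rw [h0, Polynomial.coeff_zero] at this
    have := congrArg (starRingEnd ℂ) this
    simpa using this.symm
  have hpe : ∀ z : ℂ, (starRingEnd ℂ) (p.eval z) = ∑ j : Fin M, c j * (starRingEnd ℂ) z ^ (j : ℕ) := by
    intro z
    rw [hp, Polynomial.eval_finsetSum, map_sum]
    apply Finset.sum_congr rfl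
    intro j _
    simp
  have hcz : ∀ i : Fin M, ∫ z, w z * (starRingEnd ℂ) (w z) * (z ^ (i : ℕ) *
      (starRingEnd ℂ) (p.eval z)) ∂areaD = 0 := by
    intro i
    have h1 := congrFun hc i
    simp only [Matrix.mulVec, dotProduct, Matrix.of_apply, Pi.zero_apply] at h1
    rw [← h1]
    have h2 : ∀ j : Fin M, (∫ z, w z * (hw2.star.toLp _ : Lp ℂ 2 areaD) z * mono i j z ∂areaD) * c j =
        ∫ z, w z * (starRingEnd ℂ) (w z) * (z ^ (i : ℕ) * (c j * (starRingEnd ℂ) z ^ (j : ℕ)))
          ∂areaD := by
      intro j
      rw [← integral_mul_const]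
      apply integral_congr_ae
      filter_upwards [hw2.star.coeFn_toLp] with z hz
      rw [hz]
      simp only [mono, Pi.star_apply, RCLike.star_def]
      ring
    simp_rw [h2]
    rw [← integral_finsetSum]
    · apply integral_congr_ae
      filter_upwards with z
      rw [hpe, Finset.mul_sum, Finset.mul_sum]
    · intro j _
      have h3 : Integrable (fun z => w z * (starRingEnd ℂ) (w z)) areaD := by
        exact hw2.integrable_mul hw2.star
      apply integrable_of_cont_mul _ h3
      exact (continuous_pow _).mul (continuous_const.mul (Complex.continuous_conj.pow _))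
  have hfin : ∫ z, w z * (starRingEnd ℂ) (w z) * (p.eval z * (starRingEnd ℂ) (p.eval z)) ∂areaD
      = 0 := by
    have h3 : Integrable (fun z => w z * (starRingEnd ℂ) (w z)) areaD :=
      hw2.integrable_mul hw2.star
    have h4 : ∀ z : ℂ, w z * (starRingEnd ℂ) (w z) * (p.eval z * (starRingEnd ℂ) (p.eval z)) =
        ∑ i : Fin M, (starRingEnd ℂ) (c i) * (w z * (starRingEnd ℂ) (w z) * (z ^ (i : ℕ) *
          (starRingEnd ℂ) (p.eval z))) := by
      intro z
      have h5 : p.eval z = ∑ i : Fin M, (starRingEnd ℂ) (c i) * z ^ (i : ℕ) := by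
        rw [hp, Polynomial.eval_finsetSum]
        apply Finset.sum_congr rfl
        intro j _
        simp
      generalize (starRingEnd ℂ) (p.eval z) = q
      rw [h5, Finset.sum_mul, Finset.mul_sum]
      apply Finset.sum_congr rfl
      intro i _
      ring
    simp_rw [h4]
    rw [integral_finsetSum]
    · apply Finset.sum_eq_zero
      intro i _
      rw [integral_const_mul, hcz i, mul_zero]
    · intro i _
      apply Integrable.const_mul
      apply integrable_of_cont_mul _ h3
      exact (continuous_pow _).mul (Complex.continuous_conj.comp p.continuous)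
  -- conclude
  have hreal : ∫ z, ‖w z * p.eval z‖ ^ 2 ∂areaD = 0 := by
    have h6 : ∫ z, w z * (starRingEnd ℂ) (w z) * (p.eval z * (starRingEnd ℂ) (p.eval z)) ∂areaD =
        ((∫ z, ‖w z * p.eval z‖ ^ 2 ∂areaD : ℝ) : ℂ) := by
      have h7 : ((∫ z, ‖w z * p.eval z‖ ^ 2 ∂areaD : ℝ) : ℂ) =
          ∫ z, ((‖w z * p.eval z‖ ^ 2 : ℝ) : ℂ) ∂areaD := integral_ofReal.symm
      rw [h7]
      congr 1
      ext z
      rw [Complex.mul_conj, Complex.mul_conj, norm_mul, mul_pow, Complex.normSq_eq_norm_sq,
        Complex.normSq_eq_norm_sq]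
      push_cast
      rfl
    rw [h6] at hfin
    exact_mod_cast hfin
  have hmem : MemLp (fun z => w z * p.eval z) 2 areaD :=
    MemLp.mul (p := ∞) (q := 2) (memLp_of_cont p.continuous 2) hw
  rw [integral_eq_zero_iff_of_nonneg (fun z => by positivity) hmem.norm.integrable_sq] at hreal
  filter_upwards [hreal, ae_eval_ne hp0] with z hz1 hz2
  have h8 : ‖w z * p.eval z‖ ^ 2 = 0 := hz1
  have h9 : w z * p.eval z = 0 := by
    rw [sq_eq_zero_iff, norm_eq_zero] at h8; exact h8
  exact (mul_eq_zero.mp h9).resolve_right hz2

end Pool.Agent.H44
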