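import Mathlib
import Pool.Agent.H44.PolyBlocks
import Pool.Agent.H44.PolyLuecking

set_option autoImplicit false

namespace Pool.Agent.H44

open MeasureTheory Metric Complex Set Filter Topology
open scoped ENNReal ContDiff

/-! ### Holomorphic polynomials -/

lemma poly_mem {n : ℕ} (hn : 1 ≤ n) (P : Polynomial ℂ) : cLp P.continuous ∈ polyBergman n := by
  intro φ hφ
  have h1 : ∫ z, (cLp P.continuous) z * (dbar^[n] φ) z ∂areaD =
      ∫ z, ∑ b ∈ Finset.range (P.natDegree + 1), P.coeff b * (mono b 0 z * (dbar^[n] φ) z) ∂areaD := by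
    apply integral_congr_ae
    filter_upwards [coe_cLp P.continuous] with z hz
    rw [hz, Polynomial.eval_eq_sum_range, Finset.sum_mul]
    apply Finset.sum_congr rfl
    intro b _
    unfold mono
    ring
  rw [h1, integral_finsetSum]
  · apply Finset.sum_eq_zero
    intro b hb
    rw [integral_const_mul, mono_integral _ _ n (by omega) φ hφ, mul_zero]
  · intro b _
    apply Integrable.const_mul
    exact integrable_of_cont_mul (hφ.dbar_iterate n).1.continuous
      ((memLp_of_cont (continuous_mono _ _) 1).integrable le_rfl)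

lemma mono_mem {n : ℕ} (hn : 1 ≤ n) (a : ℕ) : cLp (continuous_mono a 0) ∈ polyBergman n := by
  intro φ hφ
  have h1 : ∫ z, (cLp (continuous_mono a 0)) z * (dbar^[n] φ) z ∂areaD =
      ∫ z, (mono a 0 z * (dbar^[n] φ) z) ∂areaD := by
    apply integral_congr_ae
    filter_upwards [coe_cLp (continuous_mono a 0)] with z hz
    rw [hz]
  rw [h1, mono_integral _ _ n (by omega) φ hφ]

lemma Lp_coeFn_sum {ι : Type*} (s : Finset ι) (F : ι → Lp ℂ 2 areaD) :
    ((∑ i ∈ s, F i : Lp ℂ 2 areaD) : ℂ → ℂ) =ᵐ[areaD] fun z => ∑ i ∈ s, F i z := by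
  classical
  induction s using Finset.induction_on with
  | empty =>
    simp only [Finset.sum_empty]
    exact Lp.coeFn_zero ℂ 2 areaD
  | insert a s ha ih =>
    rw [Finset.sum_insert ha]
    filter_upwards [Lp.coeFn_add (F a) (∑ i ∈ s, F i), ih] with z h1 h2
    rw [h1, Pi.add_apply, h2, Finset.sum_insert ha]

/-! ### Toeplitz operators -/

/-- the product `f h` in `L²` -/
noncomputable def mulOp (f : Lp ℂ ∞ areaD) (h : Lp ℂ 2 areaD) : Lp ℂ 2 areaD :=
  (ContinuousLinearMap.mul ℂ ℂ).holderL areaD ∞ 2 2 f h

lemma coe_mulOp (f : Lp ℂ ∞ areaD) (h : Lp ℂ 2 areaD) :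
    mulOp f h =ᵐ[areaD] fun z => f z * h z :=
  ContinuousLinearMap.coeFn_holder _ f h

lemma toeplitz_apply (n : ℕ) (f : Lp ℂ ∞ areaD) (h : polyBergman n) :
    toeplitz n f h = (polyBergman n).orthogonalProjectionOnto (mulOp f h) := rfl

lemma inner_toeplitz (n : ℕ) (f : Lp ℂ ∞ areaD) (h u : polyBergman n) :
    inner ℂ (u : Lp ℂ 2 areaD) (toeplitz n f h : Lp ℂ 2 areaD) =
      ∫ z, f z * (h : Lp ℂ 2 areaD) z * (starRingEnd ℂ) ((u : Lp ℂ 2 areaD) z) ∂areaD := by
  rw [toeplitz_apply, ← Submodule.coe_inner,
    Submodule.inner_orthogonalProjectionOnto_eq_of_mem_left, inner_eq_integral]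
  apply integral_congr_ae
  filter_upwards [coe_mulOp f h] with z hz
  rw [hz]

lemma star_Lp_coe (f : Lp ℂ ∞ areaD) : (star f : Lp ℂ ∞ areaD) =ᵐ[areaD]
    fun z => (starRingEnd ℂ) (f z) := by
  filter_upwards [Lp.coeFn_star f] with z hz
  rw [hz]; rfl

lemma adjoint_toeplitz (n : ℕ) (f : Lp ℂ ∞ areaD) :
    ContinuousLinearMap.adjoint (toeplitz n f) = toeplitz n (star f) := by
  symm
  rw [ContinuousLinearMap.eq_adjoint_iff]
  intro x y
  rw [← inner_conj_symm, Submodule.coe_inner, Submodule.coe_inner, inner_toeplitz, inner_toeplitz,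
    ← integral_conj]
  apply integral_congr_ae
  filter_upwards [star_Lp_coe f] with z hz
  rw [hz, map_mul, map_mul, Complex.conj_conj, Complex.conj_conj]
  ring

/-- Key identity: if `T_f h = 0`... the block at `K` being invertible lets us test against `z^K`. -/
lemma toeplitz_test {n : ℕ} (hn : 1 ≤ n) (f g : Lp ℂ ∞ areaD) {ρ : ℝ → ℂ}
    (hρ : ∀ᵐ z ∂areaD, f z = ρ ‖z‖) (K : ℕ) (hdet : (blockMat n f K).det ≠ 0)
    (h : polyBergman n) (hT : (toeplitz n f ∘L toeplitz n g) h = 0) :
    ∫ z, g z * (h : Lp ℂ 2 areaD) z * mono 0 K z ∂areaD = 0 := by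
  obtain ⟨h', hh', hkey⟩ := block_preimage hn f hρ K hdet
  have h1 := hkey (toeplitz n g h : Lp ℂ 2 areaD) (toeplitz n g h).2
  have h2 := inner_toeplitz n f (toeplitz n g h) ⟨h', hh'⟩
  simp only at h2
  rw [h1] at h2
  have h3 : toeplitz n f (toeplitz n g h) = 0 := hT
  rw [h3, Submodule.coe_zero, inner_zero_right] at h2
  have h4 := inner_toeplitz n g h ⟨cLp (continuous_mono K 0), mono_mem hn K⟩
  simp only at h4
  rw [inner_mono, ← h2] at h4
  rw [h4]
  apply integral_congr_ae
  filter_upwards [coe_cLp (continuous_mono K 0)] with z hz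
  rw [hz, conj_mono]

/-- Divergence of the harmonic sum over the good integers. -/
lemma good_not_summable (B : Set ℕ)
    (hB : Summable (B.indicator (fun m : ℕ => 1 / ((m : ℝ) + 1)))) (L : ℕ) :
    ¬ Summable ({m : ℕ | ∀ K ≤ L, m + K ∉ B}.indicator (fun m : ℕ => 1 / ((m : ℝ) + 1))) := by
  classical
  intro hs
  have hK : ∀ K : ℕ, Summable ({m : ℕ | m + K ∈ B}.indicator (fun m : ℕ => 1 / ((m : ℝ) + 1))) := by
    intro K
    have h1 : Summable (fun m : ℕ => ((K : ℝ) + 1) *
        B.indicator (fun m : ℕ => 1 / ((m : ℝ) + 1)) (m + K)) :=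
      ((summable_nat_add_iff K).mpr hB).mul_left _
    apply Summable.of_nonneg_of_le _ _ h1
    · intro m; exact Set.indicator_nonneg (fun m _ => by positivity) m
    · intro m
      by_cases hm : m + K ∈ B
      · rw [Set.indicator_of_mem (show m ∈ {m : ℕ | m + K ∈ B} from hm), Set.indicator_of_mem hm]
        push_cast
        rw [mul_one_div, div_le_div_iff₀ (by positivity) (by positivity)]
        have : (0 : ℝ) ≤ m := Nat.cast_nonneg m
        have : (0 : ℝ) ≤ K := Nat.cast_nonneg K
        nlinarith [mul_nonneg (Nat.cast_nonneg (α := ℝ) K) (Nat.cast_nonneg (α := ℝ) m)]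
      · rw [Set.indicator_of_notMem (show m ∉ {m : ℕ | m + K ∈ B} from hm)]
        apply mul_nonneg (by positivity)
        exact Set.indicator_nonneg (fun m _ => by positivity) _
  have hsum : Summable (fun m : ℕ => ∑ K ∈ Finset.range (L + 1),
      {m : ℕ | m + K ∈ B}.indicator (fun m : ℕ => 1 / ((m : ℝ) + 1)) m) :=
    summable_sum (fun K _ => hK K)
  have htot : Summable (fun m : ℕ => 1 / ((m : ℝ) + 1)) := by
    apply Summable.of_nonneg_of_le _ _ (hs.add hsum)
    · intro m; positivity
    · intro m
      by_cases hm : ∀ K ≤ L, m + K ∉ B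
      · rw [Set.indicator_of_mem (show m ∈ {m : ℕ | ∀ K ≤ L, m + K ∉ B} from hm)]
        have : 0 ≤ ∑ K ∈ Finset.range (L + 1),
            {m : ℕ | m + K ∈ B}.indicator (fun m : ℕ => 1 / ((m : ℝ) + 1)) m :=
          Finset.sum_nonneg fun K _ => Set.indicator_nonneg (fun m _ => by positivity) m
        linarith
      · rw [Set.indicator_of_notMem (show m ∉ {m : ℕ | ∀ K ≤ L, m + K ∉ B} from hm), zero_add]
        push Not at hm
        obtain ⟨K, hKL, hKB⟩ := hm
        have h2 : 1 / ((m : ℝ) + 1) =
            {m : ℕ | m + K ∈ B}.indicator (fun m : ℕ => 1 / ((m : ℝ) + 1)) m := by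
          rw [Set.indicator_of_mem (show m ∈ {m : ℕ | m + K ∈ B} from hKB)]
        rw [h2]
        exact Finset.single_le_sum (f := fun K => {m : ℕ | m + K ∈ B}.indicator
          (fun m : ℕ => 1 / ((m : ℝ) + 1)) m)
          (fun K _ => Set.indicator_nonneg (fun m _ => by positivity) m)
          (Finset.mem_range.mpr (by omega))
  have := (summable_nat_add_iff (f := fun m : ℕ => 1 / (m : ℝ)) 1).mp (by
    simpa using htot)
  exact Real.not_summable_one_div_natCast this

/-- The case where the first symbol is radial. -/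
theorem radial_left {n : ℕ} (hn : 1 ≤ n) (f g : Lp ℂ ∞ areaD) (hf : IsRadial f)
    (hfin : FiniteDimensional ℂ (toeplitz n f ∘L toeplitz n g).range) : f = 0 ∨ g = 0 := by
  by_cases hf0 : f = 0
  · exact Or.inl hf0
  right
  obtain ⟨ρ, hρ⟩ := hf
  set T := toeplitz n f ∘L toeplitz n g with hTdef
  set N := Module.finrank ℂ T.range with hN
  have hgint : Integrable g areaD := (Lp.memLp g).integrable le_top
  set B : Set ℕ := {m : ℕ | (blockMat n f (m + 1)).det = 0} with hB
  have hBs := summable_sing (n := n) f hρ hf0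
  rw [← hB] at hBs
  -- the weighted symbol
  have hw : MemLp (fun z => g z * mono 1 1 z) ∞ areaD :=
    MemLp.mul (p := ∞) (q := ∞) (memLp_of_cont (continuous_mono 1 1) ∞) (Lp.memLp g)
  have hdet : ∀ Q R : Polynomial ℂ, (Matrix.of fun i j : Fin (N + 1) =>
      ∫ z, (g z * mono 1 1 z) * (Q.eval z * (starRingEnd ℂ) (R.eval z)) * mono i j z ∂areaD).det
        = 0 := by
    intro Q R
    set L := R.natDegree + N with hL
    have hcQR : Continuous (fun z : ℂ => Q.eval z * (starRingEnd ℂ) (R.eval z)) :=
      Q.continuous.mul (Complex.continuous_conj.comp R.continuous)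
    have key := det_moment_unique (N := N + 1)
      (fun i j z => g z * ((Q.eval z * (starRingEnd ℂ) (R.eval z)) * mono i j z))
      (fun i j => integrable_of_cont_mul (hcQR.mul (continuous_mono _ _)) hgint)
      {m : ℕ | ∀ K ≤ L, m + K ∉ B} ?_ (good_not_summable B hBs L) 0
    · refine Eq.trans ?_ key
      congr 1
      ext i j
      simp only [Matrix.of_apply]
      congr 1
      ext z
      ring
    · intro m hm
      -- vectors in the range
      let P : Fin (N + 1) → Polynomial ℂ := fun i => Q * Polynomial.X ^ ((i : ℕ) + (m + 1))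
      let hv : Fin (N + 1) → polyBergman n := fun i => ⟨cLp (P i).continuous, poly_mem hn (P i)⟩
      let v : Fin (N + 1) → T.range := fun i => ⟨T (hv i), ⟨hv i, rfl⟩⟩
      have hdep : ¬ LinearIndependent ℂ v := by
        intro hli
        have := hli.fintype_card_le_finrank
        rw [Fintype.card_fin, ← hN] at this
        omega
      rw [Fintype.not_linearIndependent_iff] at hdep
      obtain ⟨c, hc, i0, hi0⟩ := hdep
      set h : polyBergman n := ∑ i, c i • hv i with hh
      have hTh : T h = 0 := by
        have h1 : ((∑ i, c i • v i : T.range) : polyBergman n) = 0 := by rw [hc]; rfl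
        rw [hh, map_sum]
        rw [Submodule.coe_sum] at h1
        simpa [v] using h1
      have hhc : (h : Lp ℂ 2 areaD) =ᵐ[areaD] fun z => ∑ i, c i * (P i).eval z := by
        have h1 : (h : Lp ℂ 2 areaD) = ∑ i, c i • cLp (P i).continuous := by
          rw [hh, Submodule.coe_sum]
          rfl
        rw [h1]
        have h2 : ∀ᵐ z ∂areaD, ∀ i, (c i • cLp (P i).continuous : Lp ℂ 2 areaD) z =
            c i * (P i).eval z := by
          rw [eventually_all]
          intro i
          filter_upwards [Lp.coeFn_smul (c i) (cLp (P i).continuous), coe_cLp (P i).continuous]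
            with z hz1 hz2
          rw [hz1, Pi.smul_apply, hz2, smul_eq_mul]
        filter_upwards [Lp_coeFn_sum Finset.univ (fun i => c i • cLp (P i).continuous), h2]
          with z hz1 hz2
        rw [hz1]
        exact Finset.sum_congr rfl fun i _ => hz2 i
      have htest : ∀ K ≤ L, ∑ i, c i * ∫ z, g z * ((P i).eval z * mono 0 (m + 1 + K) z) ∂areaD = 0 := by
        intro K hK
        have hdetK : (blockMat n f (m + 1 + K)).det ≠ 0 := by
          have h3 := hm K hK
          have e : m + 1 + K = m + K + 1 := by omega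
          rw [e]
          exact h3
        have h4 := toeplitz_test hn f g hρ (m + 1 + K) hdetK h hTh
        rw [← h4]
        have h5 : ∀ i, c i * ∫ z, g z * ((P i).eval z * mono 0 (m + 1 + K) z) ∂areaD =
            ∫ z, c i * (g z * ((P i).eval z * mono 0 (m + 1 + K) z)) ∂areaD := fun i =>
          (integral_const_mul _ _).symm
        simp_rw [h5]
        rw [← integral_finsetSum]
        · apply integral_congr_ae
          filter_upwards [hhc] with z hz
          rw [hz, Finset.mul_sum, Finset.sum_mul]
          apply Finset.sum_congr rfl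
          intro i _
          ring
        · intro i _
          apply Integrable.const_mul
          exact integrable_of_cont_mul ((P i).continuous.mul (continuous_mono _ _)) hgint
      rw [← Matrix.exists_vecMul_eq_zero_iff]
      refine ⟨c, fun h0 => hi0 (congrFun h0 i0), ?_⟩
      ext j
      simp only [Matrix.vecMul, dotProduct, Matrix.of_apply, Pi.zero_apply]
      have hexp : ∀ i : Fin (N + 1), ∫ z, g z * (Q.eval z * (starRingEnd ℂ) (R.eval z) *
          mono i j z) * mono (m + 1) (m + 1) z ∂areaD =
          ∑ k ∈ Finset.range (R.natDegree + 1), (starRingEnd ℂ) (R.coeff k) *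
            ∫ z, g z * ((P i).eval z * mono 0 (m + 1 + (k + j)) z) ∂areaD := by
        intro i
        have h6 : ∀ k, (starRingEnd ℂ) (R.coeff k) *
            ∫ z, g z * ((P i).eval z * mono 0 (m + 1 + (k + j)) z) ∂areaD =
            ∫ z, (starRingEnd ℂ) (R.coeff k) *
              (g z * ((P i).eval z * mono 0 (m + 1 + (k + j)) z)) ∂areaD := fun k =>
          (integral_const_mul _ _).symm
        simp_rw [h6]
        rw [← integral_finsetSum]
        · congr 1
          ext z
          have h7 : (starRingEnd ℂ) (R.eval z) = ∑ k ∈ Finset.range (R.natDegree + 1),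
              (starRingEnd ℂ) (R.coeff k) * (starRingEnd ℂ) z ^ k := by
            conv_lhs => rw [Polynomial.eval_eq_sum_range]
            rw [map_sum]
            apply Finset.sum_congr rfl
            intro k _
            rw [map_mul, map_pow]
          rw [h7, Finset.mul_sum, Finset.sum_mul, Finset.mul_sum, Finset.sum_mul]
          apply Finset.sum_congr rfl
          intro k _
          simp only [P, Polynomial.eval_mul, Polynomial.eval_pow, Polynomial.eval_X]
          unfold mono
          ring
        · intro k _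
          apply Integrable.const_mul
          exact integrable_of_cont_mul ((P i).continuous.mul (continuous_mono _ _)) hgint
      simp_rw [hexp, Finset.mul_sum]
      rw [Finset.sum_comm]
      apply Finset.sum_eq_zero
      intro k hk
      have h8 := htest (k + j) (by
        have h9 := Finset.mem_range.mp hk
        have h10 := j.2
        omega)
      have h11 : ∑ i, c i * ((starRingEnd ℂ) (R.coeff k) *
          ∫ z, g z * ((P i).eval z * mono 0 (m + 1 + (k + j)) z) ∂areaD) =
          (starRingEnd ℂ) (R.coeff k) * ∑ i, c i *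
          ∫ z, g z * ((P i).eval z * mono 0 (m + 1 + (k + j)) z) ∂areaD := by
        rw [Finset.mul_sum]
        apply Finset.sum_congr rfl
        intro i _
        ring
      rw [h11, h8, mul_zero]
  have hzero := luecking hw hdet
  rw [Lp.eq_zero_iff_ae_eq_zero]
  filter_upwards [hzero, ae_eval_ne_X] with z h1 h2
  have h3 : g z * mono 1 1 z = 0 := h1
  have h4 : mono 1 1 z ≠ 0 := by
    unfold mono
    exact mul_ne_zero (pow_ne_zero _ h2) (pow_ne_zero _ ((map_ne_zero _).mpr h2))
  exact (mul_eq_zero.mp h3).resolve_right h4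

/-- The adjoint of a finite rank operator has finite rank. -/
lemma finite_range_adjoint {E : Type*} [NormedAddCommGroup E] [InnerProductSpace ℂ E]
    [CompleteSpace E] (A : E →L[ℂ] E) (hA : FiniteDimensional ℂ A.range) :
    FiniteDimensional ℂ (ContinuousLinearMap.adjoint A).range := by
  have hle : (ContinuousLinearMap.adjoint A).range ≤
      A.range.map (ContinuousLinearMap.adjoint A : E →ₗ[ℂ] E) := by
    rintro _ ⟨x, rfl⟩
    refine ⟨A.range.starProjection x, Submodule.starProjection_apply_mem _ x, ?_⟩
    have h1 := Submodule.sub_starProjection_mem_orthogonal (K := A.range) x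
    rw [ContinuousLinearMap.orthogonal_range] at h1
    have h2 : ContinuousLinearMap.adjoint A (x - A.range.starProjection x) = 0 := h1
    rw [map_sub, sub_eq_zero] at h2
    exact h2.symm
  have : FiniteDimensional ℂ (A.range.map (ContinuousLinearMap.adjoint A : E →ₗ[ℂ] E)) :=
    inferInstance
  exact Submodule.finiteDimensional_of_le hle

lemma IsRadial.star {f : Lp ℂ ∞ areaD} (hf : IsRadial f) : IsRadial (star f) := by
  obtain ⟨ρ, hρ⟩ := hf
  refine ⟨fun r => (starRingEnd ℂ) (ρ r), ?_⟩
  filter_upwards [hρ, star_Lp_coe f] with z h1 h2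
  rw [h2, h1]

/-- **Main theorem.** -/
theorem finite_rank_product {n : ℕ} (hn : 1 ≤ n) (f g : Lp ℂ ∞ areaD)
    (hrad : IsRadial f ∨ IsRadial g)
    (hfin : FiniteDimensional ℂ (toeplitz n f ∘L toeplitz n g).range) : f = 0 ∨ g = 0 := by
  rcases hrad with hf | hg
  · exact radial_left hn f g hf hfin
  · have h1 := finite_range_adjoint _ hfin
    rw [ContinuousLinearMap.adjoint_comp, adjoint_toeplitz, adjoint_toeplitz] at h1
    have hstar : ∀ f : Lp ℂ ∞ areaD, star f = 0 → f = 0 := by
      intro f hf
      rw [Lp.eq_zero_iff_ae_eq_zero] at hf ⊢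
      filter_upwards [hf, star_Lp_coe f] with z h3 h4
      rw [h3] at h4
      have h5 := congrArg (starRingEnd ℂ) h4
      rw [Complex.conj_conj] at h5
      rw [← h5]
      simp
    rcases radial_left hn (star g) (star f) hg.star h1 with h2 | h2
    · right; exact hstar g h2
    · left; exact hstar f h2

end Pool.Agent.H44
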