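import Mathlib
import Pool.Agent.H44.PolyFinal

set_option autoImplicit false

/-!
The same definitions on the level of functions (elements of `L²` and `L^∞` are represented by
functions `ℂ → ℂ`, equality is equality almost everywhere on the disc).
-/

namespace Pool.Agent.H44

open MeasureTheory Metric Complex Set Filter Topology
open scoped ENNReal ContDiff

/-- `h` is (a representative of) an element of the polyanalytic Bergman space `A²_n`:
`h ∈ L²(𝔻, dA)` and `∂ⁿh/∂z̄ⁿ = 0` on `𝔻` in the sense of distributions. -/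
def InBergman (n : ℕ) (h : ℂ → ℂ) : Prop :=
  MemLp h 2 areaD ∧ WeakPolyanalytic n h

/-- `v = T_f h = P_n (f h)`: `v ∈ A²_n` and `f h - v` is orthogonal to `A²_n`. -/
def IsToeplitz (n : ℕ) (f h v : ℂ → ℂ) : Prop :=
  InBergman n v ∧
    ∀ w : ℂ → ℂ, InBergman n w → ∫ z, (f z * h z - v z) * (starRingEnd ℂ) (w z) ∂areaD = 0

/-- `T_f T_g` has finite rank on `A²_n`: there are finitely many `k_1, …, k_N ∈ A²_n` such that
`T_f T_g h` is a linear combination of them for all `h ∈ A²_n`. -/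
def FiniteRankProduct (n : ℕ) (f g : ℂ → ℂ) : Prop :=
  ∃ (N : ℕ) (k : Fin N → ℂ → ℂ), (∀ i, InBergman n (k i)) ∧
    ∀ h u v : ℂ → ℂ, InBergman n h → IsToeplitz n g h u → IsToeplitz n f u v →
      ∃ c : Fin N → ℂ, ∀ᵐ z ∂areaD, v z = ∑ i, c i * k i z

/-- `f` is radial: `f(z)` depends only on `|z|` (almost everywhere). -/
def IsRadialFun (f : ℂ → ℂ) : Prop :=
  ∃ ρ : ℝ → ℂ, ∀ᵐ z ∂areaD, f z = ρ ‖z‖

lemma WeakPolyanalytic.congr {n : ℕ} {h h' : ℂ → ℂ} (hh : WeakPolyanalytic n h)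
    (he : h =ᵐ[areaD] h') : WeakPolyanalytic n h' := by
  intro φ hφ
  rw [← hh φ hφ]
  apply integral_congr_ae
  filter_upwards [he] with z hz
  rw [hz]

lemma InBergman.toLp {n : ℕ} {h : ℂ → ℂ} (hh : InBergman n h) :
    hh.1.toLp h ∈ polyBergman n :=
  hh.2.congr hh.1.coeFn_toLp.symm

lemma inBergman_coe {n : ℕ} (h : polyBergman n) : InBergman n (h : Lp ℂ 2 areaD) :=
  ⟨Lp.memLp _, h.2⟩

lemma isToeplitz_coe {n : ℕ} (f : ℂ → ℂ) (F : Lp ℂ ∞ areaD) (hF : F =ᵐ[areaD] f)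
    (h : polyBergman n) : IsToeplitz n f (h : Lp ℂ 2 areaD) (toeplitz n F h : Lp ℂ 2 areaD) := by
  refine ⟨inBergman_coe _, fun w hw => ?_⟩
  have h1 := inner_toeplitz n F h ⟨hw.1.toLp w, hw.toLp⟩
  simp only at h1
  rw [inner_eq_integral] at h1
  have hwe := hw.1.coeFn_toLp
  have hi1 : Integrable (fun z => (toeplitz n F h : Lp ℂ 2 areaD) z *
      (starRingEnd ℂ) ((hw.1.toLp w) z)) areaD :=
    (Lp.memLp _).integrable_mul (Lp.memLp _).star
  have hi2 : Integrable (fun z => F z * (h : Lp ℂ 2 areaD) z *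
      (starRingEnd ℂ) ((hw.1.toLp w) z)) areaD := by
    have hm : MemLp (fun z => F z * (h : Lp ℂ 2 areaD) z) 2 areaD :=
      MemLp.mul (p := ∞) (q := 2) (Lp.memLp (h : Lp ℂ 2 areaD)) (Lp.memLp F)
    exact hm.integrable_mul (Lp.memLp _).star
  have h2 : ∫ z, (f z * (h : Lp ℂ 2 areaD) z - (toeplitz n F h : Lp ℂ 2 areaD) z) *
      (starRingEnd ℂ) (w z) ∂areaD =
      ∫ z, (F z * (h : Lp ℂ 2 areaD) z * (starRingEnd ℂ) ((hw.1.toLp w) z) -
        (toeplitz n F h : Lp ℂ 2 areaD) z * (starRingEnd ℂ) ((hw.1.toLp w) z)) ∂areaD := by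
    apply integral_congr_ae
    filter_upwards [hF, hwe] with z hz1 hz2
    rw [hz1, hz2, sub_mul]
  rw [h2, integral_sub hi2 hi1, h1, sub_self]

/-- **Main theorem, for functions.** -/
theorem finite_rank_product_fun {n : ℕ} (hn : 1 ≤ n) (f g : ℂ → ℂ) (hf : MemLp f ∞ areaD)
    (hg : MemLp g ∞ areaD) (hrad : IsRadialFun f ∨ IsRadialFun g)
    (hfin : FiniteRankProduct n f g) :
    (∀ᵐ z ∂areaD, f z = 0) ∨ (∀ᵐ z ∂areaD, g z = 0) := by
  have hfe := hf.coeFn_toLp
  have hge := hg.coeFn_toLp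
  have hrad' : IsRadial (hf.toLp f) ∨ IsRadial (hg.toLp g) := by
    rcases hrad with ⟨ρ, hρ⟩ | ⟨ρ, hρ⟩
    · left
      refine ⟨ρ, ?_⟩
      filter_upwards [hρ, hfe] with z h1 h2
      rw [h2, h1]
    · right
      refine ⟨ρ, ?_⟩
      filter_upwards [hρ, hge] with z h1 h2
      rw [h2, h1]
  obtain ⟨N, k, hk, hkey⟩ := hfin
  set K : Fin N → polyBergman n := fun i => ⟨(hk i).1.toLp (k i), (hk i).toLp⟩ with hK
  have hle : (toeplitz n (hf.toLp f) ∘L toeplitz n (hg.toLp g)).range ≤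
      Submodule.span ℂ (Set.range K) := by
    rintro _ ⟨h, rfl⟩
    obtain ⟨c, hc⟩ := hkey (h : Lp ℂ 2 areaD) (toeplitz n (hg.toLp g) h : Lp ℂ 2 areaD)
      (toeplitz n (hf.toLp f) (toeplitz n (hg.toLp g) h) : Lp ℂ 2 areaD) (inBergman_coe h)
      (isToeplitz_coe g _ hge h) (isToeplitz_coe f _ hfe _)
    have he : toeplitz n (hf.toLp f) (toeplitz n (hg.toLp g) h) = ∑ i, c i • K i := by
      apply Subtype.ext
      have h1 : ((∑ i, c i • K i : polyBergman n) : Lp ℂ 2 areaD) =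
          ∑ i, c i • (hk i).1.toLp (k i) := by
        rw [Submodule.coe_sum]
        rfl
      rw [h1]
      apply Lp.ext
      have h2 : ∀ᵐ z ∂areaD, ∀ i, (c i • (hk i).1.toLp (k i) : Lp ℂ 2 areaD) z = c i * k i z := by
        rw [eventually_all]
        intro i
        filter_upwards [Lp.coeFn_smul (c i) ((hk i).1.toLp (k i)), (hk i).1.coeFn_toLp]
          with z hz1 hz2
        rw [hz1, Pi.smul_apply, hz2, smul_eq_mul]
      filter_upwards [hc, Lp_coeFn_sum Finset.univ (fun i => c i • (hk i).1.toLp (k i)), h2]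
        with z hz1 hz2 hz3
      rw [hz1, hz2]
      exact (Finset.sum_congr rfl fun i _ => hz3 i).symm
    show toeplitz n (hf.toLp f) (toeplitz n (hg.toLp g) h) ∈ _
    rw [he]
    exact Submodule.sum_mem _ fun i _ => Submodule.smul_mem _ _ (Submodule.subset_span ⟨i, rfl⟩)
  have hfd : FiniteDimensional ℂ (Submodule.span ℂ (Set.range K)) :=
    FiniteDimensional.span_of_finite ℂ (Set.finite_range K)
  have hfin' : FiniteDimensional ℂ
      (toeplitz n (hf.toLp f) ∘L toeplitz n (hg.toLp g)).range :=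
    Submodule.finiteDimensional_of_le hle
  rcases finite_rank_product hn _ _ hrad' hfin' with h0 | h0
  · left
    rw [Lp.eq_zero_iff_ae_eq_zero] at h0
    filter_upwards [h0, hfe] with z h1 h2
    rw [← h2, h1]; rfl
  · right
    rw [Lp.eq_zero_iff_ae_eq_zero] at h0
    filter_upwards [h0, hge] with z h1 h2
    rw [← h2, h1]; rfl

end Pool.Agent.H44
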